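import Mathlib

/-!
Extended complete Chebyshev systems: positive Wronskians imply positive determinants.
-/

namespace Pool.Agent.H94.PF

open Matrix

/-- The Wronskian matrix of the first `n` functions of a family. -/
noncomputable def W (n : ℕ) (g : ℕ → ℝ → ℝ) (t : ℝ) : ℝ :=
  (Matrix.of fun i j : Fin n => iteratedDeriv (i : ℕ) (g j) t).det

/-- The collocation determinant. -/
noncomputable def E (n : ℕ) (g : ℕ → ℝ → ℝ) (τ : Fin n → ℝ) : ℝ :=
  (Matrix.of fun i j : Fin n => g j (τ i)).det

/-- Row-by-row mean value theorem for a determinant of differences. -/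
lemma mvt_rows (n : ℕ) (h h' : Fin n → ℝ → ℝ) (hd : ∀ j t, HasDerivAt (h j) (h' j t) t)
    (α β : Fin n → ℝ) (hab : ∀ i, α i < β i) (S : Finset (Fin n)) :
    ∃ ξ : Fin n → ℝ, (∀ i, α i < ξ i ∧ ξ i < β i) ∧
      (Matrix.of fun i j : Fin n => h j (β i) - h j (α i)).det
        = (∏ i ∈ S, (β i - α i)) *
          (Matrix.of fun i j : Fin n =>
            if i ∈ S then h' j (ξ i) else h j (β i) - h j (α i)).det := by
  classical
  induction S using Finset.induction_on with
  | empty =>
    refine ⟨fun i => (α i + β i) / 2, fun i => ⟨by linarith [hab i], by linarith [hab i]⟩, ?_⟩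
    simp
  | insert a S ha ih =>
    obtain ⟨ξ, hξ, hdet⟩ := ih
    set M : Matrix (Fin n) (Fin n) ℝ := Matrix.of fun i j : Fin n =>
            if i ∈ S then h' j (ξ i) else h j (β i) - h j (α i) with hM
    -- the determinant as a function of the row `a`
    let L : (Fin n → ℝ) →ₗ[ℝ] ℝ :=
      (Matrix.detRowAlternating (n := Fin n) (R := ℝ)).toMultilinearMap.toLinearMap M a
    have hL : ∀ v, L v = (Matrix.updateRow M a v).det := fun v => rfl
    let Lc : (Fin n → ℝ) →L[ℝ] ℝ := LinearMap.toContinuousLinearMap L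
    have hLc : ∀ v, Lc v = (Matrix.updateRow M a v).det := fun v => rfl
    have hder : ∀ t, HasDerivAt (fun t => Lc (fun j => h j t)) (Lc (fun j => h' j t)) t := by
      intro t
      have h1 : HasDerivAt (fun t => (fun j => h j t)) (fun j => h' j t) t :=
        hasDerivAt_pi.2 (fun j => hd j t)
      exact Lc.hasFDerivAt.comp_hasDerivAt t h1
    obtain ⟨c, hc, hc'⟩ := exists_hasDerivAt_eq_slope (fun t => Lc (fun j => h j t))
      (fun t => Lc (fun j => h' j t)) (hab a)
      (fun t _ => (hder t).continuousAt.continuousWithinAt) (fun t _ => hder t)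
    refine ⟨Function.update ξ a c, ?_, ?_⟩
    · intro i
      by_cases hi : i = a
      · subst hi; simpa using hc
      · simpa [Function.update_of_ne hi] using hξ i
    · rw [hdet, Finset.prod_insert ha]
      have e1 : M = Matrix.updateRow M a (fun j => h j (β a) - h j (α a)) := by
        ext i j
        by_cases hi : i = a
        · subst hi; simp [hM, ha]
        · rw [Matrix.updateRow_ne hi]
      have e2 : (Matrix.of fun i j : Fin n =>
            if i ∈ insert a S then h' j (Function.update ξ a c i)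
              else h j (β i) - h j (α i)) = Matrix.updateRow M a (fun j => h' j c) := by
        ext i j
        by_cases hi : i = a
        · subst hi; simp
        · rw [Matrix.updateRow_ne hi]
          simp [hM, hi, Function.update_of_ne hi]
      rw [e2, ← hLc]
      have e3 : M.det = Lc (fun j => h j (β a)) - Lc (fun j => h j (α a)) := by
        rw [← map_sub]
        conv_lhs => rw [e1]
        rw [hLc]
        rfl
      have hpos : 0 < β a - α a := by linarith [hab a]
      have e4 : M.det = (β a - α a) * Lc (fun j => h' j c) := by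
        rw [e3, hc']
        field_simp
      rw [e4]
      ring

lemma mvt_det (n : ℕ) (h h' : Fin n → ℝ → ℝ) (hd : ∀ j t, HasDerivAt (h j) (h' j t) t)
    (α β : Fin n → ℝ) (hab : ∀ i, α i < β i) :
    ∃ ξ : Fin n → ℝ, (∀ i, α i < ξ i ∧ ξ i < β i) ∧
      (Matrix.of fun i j : Fin n => h j (β i) - h j (α i)).det
        = (∏ i, (β i - α i)) * (Matrix.of fun i j : Fin n => h' j (ξ i)).det := by
  obtain ⟨ξ, hξ, h1⟩ := mvt_rows n h h' hd α β hab Finset.univ
  refine ⟨ξ, hξ, ?_⟩
  rw [h1]
  simp

/-- The reduced family `(g_{j+1}/g_0)'`. -/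
noncomputable def red (g : ℕ → ℝ → ℝ) (j : ℕ) : ℝ → ℝ := deriv (fun t => g (j + 1) t / g 0 t)

lemma red_contDiff (g : ℕ → ℝ → ℝ) (hg : ∀ j, ContDiff ℝ (⊤ : ℕ∞) (g j)) (h0 : ∀ t, g 0 t ≠ 0)
    (j : ℕ) : ContDiff ℝ (⊤ : ℕ∞) (red g j) := by
  have h1 : ContDiff ℝ (⊤ : ℕ∞) (fun t => g (j + 1) t / g 0 t) := (hg (j + 1)).div (hg 0) h0
  exact ((contDiff_infty_iff_deriv).1 h1).2

/-- Wronskian reduction. -/
lemma W_red (n : ℕ) (g : ℕ → ℝ → ℝ) (hg : ∀ j, ContDiff ℝ (⊤ : ℕ∞) (g j)) (h0 : ∀ t, g 0 t ≠ 0)
    (t : ℝ) : W (n + 1) g t = (g 0 t) ^ (n + 1) * W n (red g) t := by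
  set q : ℕ → ℝ → ℝ := fun j t => g j t / g 0 t with hq
  have hqc : ∀ j, ContDiff ℝ (⊤ : ℕ∞) (q j) := fun j => (hg j).div (hg 0) h0
  have hmul : ∀ j, g j = q j * g 0 := by
    intro j
    funext s
    simp [hq, div_mul_cancel₀ _ (h0 s)]
  -- factorization
  let L : Matrix (Fin (n + 1)) (Fin (n + 1)) ℝ := Matrix.of fun i l =>
    if (l : ℕ) ≤ i then ((i : ℕ).choose l : ℝ) * iteratedDeriv ((i : ℕ) - l) (g 0) t else 0
  let Q : Matrix (Fin (n + 1)) (Fin (n + 1)) ℝ := Matrix.of fun l j =>
    iteratedDeriv (l : ℕ) (q j) t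
  have hM : (Matrix.of fun i j : Fin (n + 1) => iteratedDeriv (i : ℕ) (g j) t) = L * Q := by
    ext i j
    simp only [Matrix.of_apply, Matrix.mul_apply, L, Q]
    rw [hmul j, iteratedDeriv_mul]
    · rw [Fin.sum_univ_eq_sum_range (fun l => (if l ≤ (i : ℕ) then
        ((i : ℕ).choose l : ℝ) * iteratedDeriv ((i : ℕ) - l) (g 0) t else 0) *
          iteratedDeriv l (q j) t) (n + 1)]
      have hsub : Finset.range ((i : ℕ) + 1) ⊆ Finset.range (n + 1) := by
        intro x hx
        have := i.2
        simp only [Finset.mem_range] at hx ⊢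
        omega
      rw [← Finset.sum_subset hsub]
      · apply Finset.sum_congr rfl
        intro x hx
        simp only [Finset.mem_range] at hx
        rw [if_pos (by omega)]
        ring
      · intro x _ hx
        simp only [Finset.mem_range] at hx
        rw [if_neg (by omega), zero_mul]
    · exact ((hqc j).of_le (by exact_mod_cast le_top)).contDiffAt
    · exact ((hg 0).of_le (by exact_mod_cast le_top)).contDiffAt
  have hLdet : L.det = (g 0 t) ^ (n + 1) := by
    have htri : L.BlockTriangular (OrderDual.toDual) := by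
      intro i j hij
      have hij' : i < j := hij
      simp only [L, Matrix.of_apply]
      rw [if_neg]
      intro hle
      exact absurd hij' (not_lt.2 hle)
    rw [Matrix.det_of_isLowerTriangular L htri]
    simp [L]
  have hQdet : Q.det = W n (red g) t := by
    rw [Matrix.det_succ_column_zero, Finset.sum_eq_single 0]
    · have h1 : Q 0 0 = 1 := by
        simp [Q, hq, div_self (h0 t)]
      rw [h1]
      simp only [Fin.val_zero, pow_zero, one_mul]
      unfold W
      congr 1
      ext i j
      simp only [Matrix.submatrix_apply, Q, Matrix.of_apply, Fin.succAbove_zero, Fin.val_succ]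
      rw [iteratedDeriv_succ']
      rfl
    · intro i _ hi
      have h2 : Q i 0 = 0 := by
        simp only [Q, Matrix.of_apply]
        have hq0 : q (((0 : Fin (n + 1)) : ℕ)) = fun _ => (1 : ℝ) := by
          funext s
          simp [hq, div_self (h0 s)]
        rw [hq0, iteratedDeriv_const]
        have : (i : ℕ) ≠ 0 := by
          intro h
          exact hi (Fin.ext h)
        simp [this]
      rw [h2]
      ring
    · simp
  unfold W
  rw [hM, Matrix.det_mul, hLdet, hQdet]
  rfl

/-- Collocation reduction. -/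
lemma E_red (n : ℕ) (g : ℕ → ℝ → ℝ) (hg : ∀ j, ContDiff ℝ (⊤ : ℕ∞) (g j)) (h0 : ∀ t, 0 < g 0 t)
    (τ : Fin (n + 1) → ℝ) (hτ : StrictMono τ) :
    ∃ ξ : Fin n → ℝ, (∀ i : Fin n, τ i.castSucc < ξ i ∧ ξ i < τ i.succ) ∧
      E (n + 1) g τ = (∏ i, g 0 (τ i)) * ((∏ i : Fin n, (τ i.succ - τ i.castSucc)) *
        E n (red g) ξ) := by
  have h0' : ∀ t, g 0 t ≠ 0 := fun t => (h0 t).ne'
  set q : ℕ → ℝ → ℝ := fun j t => g j t / g 0 t with hq
  have hqc : ∀ j, ContDiff ℝ (⊤ : ℕ∞) (q j) := fun j => (hg j).div (hg 0) h0'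
  obtain ⟨ξ, hξ, hdet⟩ := mvt_det n (fun j t => q (j + 1) t) (fun j t => red g j t)
    (fun j t => by
      have : Differentiable ℝ (q (j + 1)) := (hqc (j + 1)).differentiable (by simp)
      exact (this t).hasDerivAt)
    (fun i => τ i.castSucc) (fun i => τ i.succ) (fun i => hτ Fin.castSucc_lt_succ)
  refine ⟨ξ, hξ, ?_⟩
  have hE : E (n + 1) g τ = (∏ i, g 0 (τ i)) *
      (Matrix.of fun i j : Fin (n + 1) => q j (τ i)).det := by
    unfold E
    rw [← Matrix.det_mul_column]
    congr 1
    ext i j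
    simp [hq, mul_div_cancel₀ _ (h0' (τ i))]
  rw [hE]
  congr 1
  have hB : (Matrix.of fun i j : Fin (n + 1) => q j (τ i)).det =
      (Matrix.of fun i j : Fin (n + 1) => Fin.cases (motive := fun _ => ℝ) (q j (τ 0))
        (fun i' => q j (τ i'.succ) - q j (τ i'.castSucc)) i).det := by
    apply Matrix.det_eq_of_forall_row_eq_smul_add_pred (fun _ => (1 : ℝ))
    · intro j
      simp
    · intro i j
      simp
  rw [hB, Matrix.det_succ_column_zero, Finset.sum_eq_single 0]
  · have hEE : E n (red g) ξ = (Matrix.of fun i j : Fin n => red g j (ξ i)).det := rfl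
    rw [hEE, ← hdet]
    have h1 : q 0 (τ 0) = 1 := by simp [hq, div_self (h0' _)]
    have h2 : (Matrix.of fun i j : Fin (n + 1) => Fin.cases (motive := fun _ => ℝ) (q j (τ 0))
        (fun i' => q j (τ i'.succ) - q j (τ i'.castSucc)) i) 0 0 = 1 := h1
    rw [h2]
    simp only [Fin.val_zero, pow_zero, one_mul]
    congr 1
  · intro i _ hi
    obtain ⟨i', rfl⟩ := Fin.exists_succ_eq.2 hi
    have h1 : ∀ s, q 0 s = 1 := fun s => by simp [hq, div_self (h0' _)]
    simp [h1]
  · simp

/-- **Positive Wronskians imply positive collocation determinants.** -/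
theorem ect (n : ℕ) : ∀ (g : ℕ → ℝ → ℝ), (∀ j, ContDiff ℝ (⊤ : ℕ∞) (g j)) →
    (∀ m, 1 ≤ m → m ≤ n → ∀ t, 0 < W m g t) →
    ∀ τ : Fin n → ℝ, StrictMono τ → 0 < E n g τ := by
  induction n with
  | zero =>
    intro g _ _ τ _
    simp [E]
  | succ n ih =>
    intro g hg hW τ hτ
    have h0 : ∀ t, 0 < g 0 t := by
      intro t
      have := hW 1 le_rfl (by omega) t
      simpa [W] using this
    have h0' : ∀ t, g 0 t ≠ 0 := fun t => (h0 t).ne'
    obtain ⟨ξ, hξ, hE⟩ := E_red n g hg h0 τ hτ
    rw [hE]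
    refine mul_pos (Finset.prod_pos fun i _ => h0 _) (mul_pos (Finset.prod_pos fun i _ => ?_) ?_)
    · have := hτ (Fin.castSucc_lt_succ (i := i))
      linarith
    · refine ih (red g) (red_contDiff g hg h0') ?_ ξ ?_
      · intro m hm1 hm2 t
        have h1 := hW (m + 1) (by omega) (by omega) t
        rw [W_red m g hg h0' t] at h1
        exact (pos_iff_pos_of_mul_pos h1).1 (pow_pos (h0 t) _)
      · intro i j hij
        calc ξ i < τ i.succ := (hξ i).2
          _ ≤ τ j.castSucc := hτ.monotone (by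
              rw [Fin.le_def]
              have : (i : ℕ) < j := hij
              simp
              omega)
          _ < ξ j := (hξ j).1

/-- The sign-adjusted Hankel (Wronskian of derivatives) determinants of `f`. -/
noncomputable def T (m : ℕ) (f : ℝ → ℝ) (u : ℝ) : ℝ :=
  (Matrix.of fun i j : Fin m => (-1 : ℝ) ^ (j : ℕ) * iteratedDeriv ((i : ℕ) + j) f u).det

/-- **Karlin's criterion.** -/
theorem karlin (n : ℕ) (f : ℝ → ℝ) (hf : ContDiff ℝ (⊤ : ℕ∞) f)
    (hT : ∀ m, 1 ≤ m → m ≤ n → ∀ u, 0 < T m f u) (x y : Fin n → ℝ) (hx : StrictMono x)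
    (hy : StrictMono y) : 0 < (Matrix.of fun i j => f (x i - y j)).det := by
  -- first step: in the variable `x`
  have step1 : ∀ m ≤ n, ∀ (y₀ : ℝ) (τ : Fin m → ℝ), StrictMono τ →
      0 < (Matrix.of fun i j : Fin m => (-1 : ℝ) ^ (j : ℕ) *
        iteratedDeriv (j : ℕ) f (τ i - y₀)).det := by
    intro m hm y₀ τ hτ
    have key := ect m (fun j t => (-1 : ℝ) ^ j * iteratedDeriv j f (t - y₀)) ?_ ?_ τ hτ
    · simpa [E] using key
    · intro j
      have h1 : ContDiff ℝ (⊤ : ℕ∞) (iteratedDeriv j f) := by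
        rw [iteratedDeriv_eq_iterate]
        exact ContDiff.iterate_deriv j hf
      exact contDiff_const.mul (h1.comp (contDiff_id.sub contDiff_const))
    · intro m' h1 h2 t
      have h3 := hT m' h1 (h2.trans hm) (t - y₀)
      unfold T at h3
      unfold W
      convert h3 using 3
      ext i j
      have e : iteratedDeriv (i : ℕ) (fun t => (-1 : ℝ) ^ (j : ℕ) * iteratedDeriv (j : ℕ) f (t - y₀)) t
          = (-1 : ℝ) ^ (j : ℕ) * iteratedDeriv (i : ℕ) (fun t => iteratedDeriv (j : ℕ) f (t - y₀)) t := by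
        rw [iteratedDeriv_const_mul_field]
      simp only [Matrix.of_apply]
      rw [e, iteratedDeriv_comp_sub_const]
      have e2 : iteratedDeriv (i : ℕ) (iteratedDeriv (j : ℕ) f) = iteratedDeriv ((i : ℕ) + j) f := by
        simp only [iteratedDeriv_eq_iterate]
        rw [Function.iterate_add_apply]
      simp only [e2]
  -- second step: in the variable `y`
  let x' : ℕ → ℝ := fun i => if h : i < n then x ⟨i, h⟩ else 0
  have key := ect n (fun i t => f (x' i - t)) ?_ ?_ y hy
  · rw [← Matrix.det_transpose]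
    unfold E at key
    convert key using 3
    ext i j
    simp [x', j.2]
  · intro j
    exact hf.comp (contDiff_const.sub contDiff_id)
  · intro m h1 h2 t
    have h3 := step1 m h2 t (fun i => x (Fin.castLE h2 i)) (hx.comp (Fin.strictMono_castLE h2))
    rw [← Matrix.det_transpose] at h3
    unfold W
    convert h3 using 3
    ext i j
    simp only [Matrix.of_apply, Matrix.transpose_apply]
    rw [iteratedDeriv_comp_const_sub]
    have hj : (j : ℕ) < n := lt_of_lt_of_le j.2 h2
    simp only [x', hj, dif_pos, smul_eq_mul]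
    rfl

end Pool.Agent.H94.PF
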