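import Pool.Agent.H94.PF.Series

/-!
Positivity of the Hankel determinants of the de Bruijn-Newman kernel.
-/

set_option linter.all false
namespace Pool.Agent.H94.PF
open Polynomial

lemma D2_scale (c a0 a1 a2 : ℝ) (hc : 0 < c) :
    (0 < -D2 (c * a0) (c * a1) (c * a2)) = (0 < -D2 a0 a1 a2) := by
  have : -D2 (c * a0) (c * a1) (c * a2) = c ^ 2 * -D2 a0 a1 a2 := by unfold D2; ring
  rw [this]
  exact propext (mul_pos_iff_of_pos_left (by positivity))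
lemma D3_scale (c a0 a1 a2 a3 a4 : ℝ) (hc : 0 < c) :
    (0 < -D3 (c * a0) (c * a1) (c * a2) (c * a3) (c * a4)) = (0 < -D3 a0 a1 a2 a3 a4) := by
  have : -D3 (c * a0) (c * a1) (c * a2) (c * a3) (c * a4) = c ^ 3 * -D3 a0 a1 a2 a3 a4 := by
    unfold D3; ring
  rw [this]
  exact propext (mul_pos_iff_of_pos_left (by positivity))
lemma D4_scale (c a0 a1 a2 a3 a4 a5 a6 : ℝ) (hc : 0 < c) :
    (0 < D4 (c * a0) (c * a1) (c * a2) (c * a3) (c * a4) (c * a5) (c * a6))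
      = (0 < D4 a0 a1 a2 a3 a4 a5 a6) := by
  have : D4 (c * a0) (c * a1) (c * a2) (c * a3) (c * a4) (c * a5) (c * a6)
      = c ^ 4 * D4 a0 a1 a2 a3 a4 a5 a6 := by
    unfold D4; ring
  rw [this]
  exact propext (mul_pos_iff_of_pos_left (by positivity))

/-- the derivative values -/
noncomputable def dv (k : ℕ) (u : ℝ) : ℝ := iteratedDeriv k (TT P0) u

lemma dv_hasDerivAt (k : ℕ) (u : ℝ) : HasDerivAt (dv k) (dv (k + 1) u) u := by
  unfold dv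
  rw [TT_iteratedDeriv, TT_iteratedDeriv, Function.iterate_succ_apply']
  exact TT_hasDerivAt _ u

lemma dv_neg (k : ℕ) : ∀ u, dv k (-u) = (-1) ^ k * dv k u := by
  induction k with
  | zero => intro u; simpa [dv] using TT_P0_even u
  | succ k ih =>
    intro u
    have a1 : HasDerivAt (fun u => dv k (-u)) (dv (k + 1) (-u) * (-1)) u :=
      (dv_hasDerivAt k (-u)).comp u (hasDerivAt_neg u)
    have a2 : (fun u => dv k (-u)) = fun u => (-1) ^ k * dv k u := funext ih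
    rw [a2] at a1
    have := a1.unique ((dv_hasDerivAt k u).const_mul _)
    rw [pow_succ]
    linarith

lemma T1_eq (f : ℝ → ℝ) (u : ℝ) : T 1 f u = iteratedDeriv 0 f u := by
  unfold T
  simp

lemma T2_eq (f : ℝ → ℝ) (u : ℝ) : T 2 f u =
    -D2 (iteratedDeriv 0 f u) (iteratedDeriv 1 f u) (iteratedDeriv 2 f u) := by
  unfold T D2
  rw [Matrix.det_fin_two]
  simp
  ring

lemma T3_eq (f : ℝ → ℝ) (u : ℝ) : T 3 f u =
    -D3 (iteratedDeriv 0 f u) (iteratedDeriv 1 f u) (iteratedDeriv 2 f u) (iteratedDeriv 3 f u)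
      (iteratedDeriv 4 f u) := by
  unfold T D3
  rw [Matrix.det_fin_three]
  simp
  ring

lemma T4_eq (f : ℝ → ℝ) (u : ℝ) : T 4 f u =
    D4 (iteratedDeriv 0 f u) (iteratedDeriv 1 f u) (iteratedDeriv 2 f u) (iteratedDeriv 3 f u)
      (iteratedDeriv 4 f u) (iteratedDeriv 5 f u) (iteratedDeriv 6 f u) := by
  unfold T D4
  rw [Matrix.det_succ_row_zero, Fin.sum_univ_four]
  simp only [Matrix.det_fin_three, Matrix.submatrix_apply, Matrix.of_apply, Fin.succAbove]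
  simp [Fin.lt_def]
  norm_num
  ring

lemma R0_bound (w : ℝ) (hw : 0 ≤ w) : |∑' n : ℕ, p0 (((n : ℝ) + 3) ^ 2 * (3 + w)) *
    Real.exp (-((((n : ℝ) + 3) ^ 2 - 1) * (3 + w)))| ≤ (1 / 10000000) * Real.exp (-8 * w) * (1 + w / 2) ^ (0 + 2) :=
  tail_sum p0 2 _ _ (by norm_num) (by norm_num) p0_far w hw (by norm_num)

lemma dv0_eq (u w : ℝ) (hw : Real.pi * Real.exp (4 * u) = 3 + w) :
    dv 0 u = (Real.exp u * Real.exp (-(3 + w))) * (p0 (3 + w)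
      + Real.exp (-3 * (3 + w)) * p0 (4 * (3 + w))
      + ∑' n : ℕ, p0 (((n : ℝ) + 3) ^ 2 * (3 + w)) *
          Real.exp (-((((n : ℝ) + 3) ^ 2 - 1) * (3 + w)))) := by
  unfold dv
  rw [TT_iteratedDeriv]
  exact sm_split _ p0 ev0 u w hw

lemma R1_bound (w : ℝ) (hw : 0 ≤ w) : |∑' n : ℕ, p1 (((n : ℝ) + 3) ^ 2 * (3 + w)) *
    Real.exp (-((((n : ℝ) + 3) ^ 2 - 1) * (3 + w)))| ≤ (1 / 100000) * Real.exp (-8 * w) * (1 + w / 2) ^ (1 + 2) :=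
  tail_sum p1 8 _ _ (by norm_num) (by norm_num) p1_far w hw (by norm_num)

lemma dv1_eq (u w : ℝ) (hw : Real.pi * Real.exp (4 * u) = 3 + w) :
    dv 1 u = (Real.exp u * Real.exp (-(3 + w))) * (p1 (3 + w)
      + Real.exp (-3 * (3 + w)) * p1 (4 * (3 + w))
      + ∑' n : ℕ, p1 (((n : ℝ) + 3) ^ 2 * (3 + w)) *
          Real.exp (-((((n : ℝ) + 3) ^ 2 - 1) * (3 + w)))) := by
  unfold dv
  rw [TT_iteratedDeriv]
  exact sm_split _ p1 ev1 u w hw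

lemma R2_bound (w : ℝ) (hw : 0 ≤ w) : |∑' n : ℕ, p2 (((n : ℝ) + 3) ^ 2 * (3 + w)) *
    Real.exp (-((((n : ℝ) + 3) ^ 2 - 1) * (3 + w)))| ≤ (1 / 1000) * Real.exp (-8 * w) * (1 + w / 2) ^ (2 + 2) :=
  tail_sum p2 32 _ _ (by norm_num) (by norm_num) p2_far w hw (by norm_num)

lemma dv2_eq (u w : ℝ) (hw : Real.pi * Real.exp (4 * u) = 3 + w) :
    dv 2 u = (Real.exp u * Real.exp (-(3 + w))) * (p2 (3 + w)
      + Real.exp (-3 * (3 + w)) * p2 (4 * (3 + w))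
      + ∑' n : ℕ, p2 (((n : ℝ) + 3) ^ 2 * (3 + w)) *
          Real.exp (-((((n : ℝ) + 3) ^ 2 - 1) * (3 + w)))) := by
  unfold dv
  rw [TT_iteratedDeriv]
  exact sm_split _ p2 ev2 u w hw

lemma R3_bound (w : ℝ) (hw : 0 ≤ w) : |∑' n : ℕ, p3 (((n : ℝ) + 3) ^ 2 * (3 + w)) *
    Real.exp (-((((n : ℝ) + 3) ^ 2 - 1) * (3 + w)))| ≤ (1 / 10) * Real.exp (-8 * w) * (1 + w / 2) ^ (3 + 2) :=
  tail_sum p3 128 _ _ (by norm_num) (by norm_num) p3_far w hw (by norm_num)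

lemma dv3_eq (u w : ℝ) (hw : Real.pi * Real.exp (4 * u) = 3 + w) :
    dv 3 u = (Real.exp u * Real.exp (-(3 + w))) * (p3 (3 + w)
      + Real.exp (-3 * (3 + w)) * p3 (4 * (3 + w))
      + ∑' n : ℕ, p3 (((n : ℝ) + 3) ^ 2 * (3 + w)) *
          Real.exp (-((((n : ℝ) + 3) ^ 2 - 1) * (3 + w)))) := by
  unfold dv
  rw [TT_iteratedDeriv]
  exact sm_split _ p3 ev3 u w hw

lemma R4_bound (w : ℝ) (hw : 0 ≤ w) : |∑' n : ℕ, p4 (((n : ℝ) + 3) ^ 2 * (3 + w)) *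
    Real.exp (-((((n : ℝ) + 3) ^ 2 - 1) * (3 + w)))| ≤ 9 * Real.exp (-8 * w) * (1 + w / 2) ^ (4 + 2) :=
  tail_sum p4 512 _ _ (by norm_num) (by norm_num) p4_far w hw (by norm_num)

lemma dv4_eq (u w : ℝ) (hw : Real.pi * Real.exp (4 * u) = 3 + w) :
    dv 4 u = (Real.exp u * Real.exp (-(3 + w))) * (p4 (3 + w)
      + Real.exp (-3 * (3 + w)) * p4 (4 * (3 + w))
      + ∑' n : ℕ, p4 (((n : ℝ) + 3) ^ 2 * (3 + w)) *
          Real.exp (-((((n : ℝ) + 3) ^ 2 - 1) * (3 + w)))) := by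
  unfold dv
  rw [TT_iteratedDeriv]
  exact sm_split _ p4 ev4 u w hw

lemma R5_bound (w : ℝ) (hw : 0 ≤ w) : |∑' n : ℕ, p5 (((n : ℝ) + 3) ^ 2 * (3 + w)) *
    Real.exp (-((((n : ℝ) + 3) ^ 2 - 1) * (3 + w)))| ≤ 900 * Real.exp (-8 * w) * (1 + w / 2) ^ (5 + 2) :=
  tail_sum p5 2048 _ _ (by norm_num) (by norm_num) p5_far w hw (by norm_num)

lemma dv5_eq (u w : ℝ) (hw : Real.pi * Real.exp (4 * u) = 3 + w) :
    dv 5 u = (Real.exp u * Real.exp (-(3 + w))) * (p5 (3 + w)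
      + Real.exp (-3 * (3 + w)) * p5 (4 * (3 + w))
      + ∑' n : ℕ, p5 (((n : ℝ) + 3) ^ 2 * (3 + w)) *
          Real.exp (-((((n : ℝ) + 3) ^ 2 - 1) * (3 + w)))) := by
  unfold dv
  rw [TT_iteratedDeriv]
  exact sm_split _ p5 ev5 u w hw

lemma R6_bound (w : ℝ) (hw : 0 ≤ w) : |∑' n : ℕ, p6 (((n : ℝ) + 3) ^ 2 * (3 + w)) *
    Real.exp (-((((n : ℝ) + 3) ^ 2 - 1) * (3 + w)))| ≤ 94000 * Real.exp (-8 * w) * (1 + w / 2) ^ (6 + 2) :=
  tail_sum p6 8192 _ _ (by norm_num) (by norm_num) p6_far w hw (by norm_num)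

lemma dv6_eq (u w : ℝ) (hw : Real.pi * Real.exp (4 * u) = 3 + w) :
    dv 6 u = (Real.exp u * Real.exp (-(3 + w))) * (p6 (3 + w)
      + Real.exp (-3 * (3 + w)) * p6 (4 * (3 + w))
      + ∑' n : ℕ, p6 (((n : ℝ) + 3) ^ 2 * (3 + w)) *
          Real.exp (-((((n : ℝ) + 3) ^ 2 - 1) * (3 + w)))) := by
  unfold dv
  rw [TT_iteratedDeriv]
  exact sm_split _ p6 ev6 u w hw


lemma exists_w (u : ℝ) (hu : 0 ≤ u) : ∃ w : ℝ, 0 ≤ w ∧ Real.pi * Real.exp (4 * u) = 3 + w := by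
  refine ⟨Real.pi * Real.exp (4 * u) - 3, ?_, by ring⟩
  have h1 := Real.pi_gt_three
  have h2 : 1 ≤ Real.exp (4 * u) := Real.one_le_exp (by positivity)
  nlinarith

lemma dpos1 (u : ℝ) (hu : 0 ≤ u) : 0 < dv 0 u := by
  obtain ⟨w, hw, hz⟩ := exists_w u hu
  rw [dv0_eq u w hz]
  have hR := R0_bound w hw
  have hδ := delta_bounds w hw
  have h1 : Real.exp (-8 * w) * (1 + w / 2) ^ (0 + 2) ≤ 1 := by
    calc Real.exp (-8 * w) * (1 + w / 2) ^ (0 + 2) ≤ Real.exp (-8 * w) * (1 + w / 2) ^ 16 := by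
          have : 1 ≤ 1 + w / 2 := by linarith
          gcongr
          norm_num
      _ ≤ 1 := hδ.2.2
  have h2 := (abs_le.1 hR).1
  have h3 : 9 ≤ p0 (3 + w) := by
    have : p0 (3 + w) = 9 + 9 * w + 2 * w ^ 2 := by unfold p0; ring
    rw [this]
    nlinarith
  have h4 : 0 ≤ Real.exp (-3 * (3 + w)) * p0 (4 * (3 + w)) := by
    have : p0 (4 * (3 + w)) = 252 + 180 * w + 32 * w ^ 2 := by unfold p0; ring
    rw [this]
    positivity
  apply mul_pos (by positivity)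
  linarith

lemma dpos2 (u : ℝ) (hu : 0 ≤ u) : 0 < -D2 (dv 0 u) (dv 1 u) (dv 2 u) := by
  obtain ⟨w, hw, hz⟩ := exists_w u hu
  have hE := E_bounds w hw
  have hδ := delta_bounds w hw
  have h := pos2 w _ _ _ _ _ hw hE.1 hE.2.1 hE.2.2.1 hE.2.2.2 hδ.1 hδ.2.1 hδ.2.2
    (R0_bound w hw) (R1_bound w hw) (R2_bound w hw)
  rw [← D2_scale (Real.exp u * Real.exp (-(3 + w))) _ _ _ (by positivity)] at h
  rw [dv0_eq u w hz, dv1_eq u w hz, dv2_eq u w hz]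
  exact h

lemma dpos3 (u : ℝ) (hu : 0 ≤ u) : 0 < -D3 (dv 0 u) (dv 1 u) (dv 2 u) (dv 3 u) (dv 4 u) := by
  obtain ⟨w, hw, hz⟩ := exists_w u hu
  have hE := E_bounds w hw
  have hδ := delta_bounds w hw
  have h := pos3 w _ _ _ _ _ _ _ hw hE.1 hE.2.1 hE.2.2.1 hE.2.2.2 hδ.1 hδ.2.1 hδ.2.2
    (R0_bound w hw) (R1_bound w hw) (R2_bound w hw) (R3_bound w hw) (R4_bound w hw)
  rw [← D3_scale (Real.exp u * Real.exp (-(3 + w))) _ _ _ _ _ (by positivity)] at h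
  rw [dv0_eq u w hz, dv1_eq u w hz, dv2_eq u w hz, dv3_eq u w hz, dv4_eq u w hz]
  exact h

lemma dpos4 (u : ℝ) (hu : 0 ≤ u) : 0 < D4 (dv 0 u) (dv 1 u) (dv 2 u) (dv 3 u) (dv 4 u) (dv 5 u)
    (dv 6 u) := by
  obtain ⟨w, hw, hz⟩ := exists_w u hu
  have hE := E_bounds w hw
  have hδ := delta_bounds w hw
  have h := pos4 w _ _ _ _ _ _ _ _ _ hw hE.1 hE.2.1 hE.2.2.1 hE.2.2.2 hδ.1 hδ.2.1 hδ.2.2
    (R0_bound w hw) (R1_bound w hw) (R2_bound w hw) (R3_bound w hw) (R4_bound w hw)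
    (R5_bound w hw) (R6_bound w hw)
  rw [← D4_scale (Real.exp u * Real.exp (-(3 + w))) _ _ _ _ _ _ _ (by positivity)] at h
  rw [dv0_eq u w hz, dv1_eq u w hz, dv2_eq u w hz, dv3_eq u w hz, dv4_eq u w hz, dv5_eq u w hz,
    dv6_eq u w hz]
  exact h

lemma T_nonneg_arg (m : ℕ) (h1 : 1 ≤ m) (h4 : m ≤ 4) (u : ℝ) (hu : 0 ≤ u) :
    0 < T m (TT P0) u := by
  interval_cases m
  · rw [T1_eq]; exact dpos1 u hu
  · rw [T2_eq]; exact dpos2 u hu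
  · rw [T3_eq]; exact dpos3 u hu
  · rw [T4_eq]; exact dpos4 u hu

lemma T_neg (m : ℕ) (u : ℝ) : T m (TT P0) (-u) = T m (TT P0) u := by
  unfold T
  have e : (Matrix.of fun i j : Fin m => (-1 : ℝ) ^ (j : ℕ) *
      iteratedDeriv ((i : ℕ) + j) (TT P0) (-u)) = Matrix.of fun i j : Fin m =>
        ((-1 : ℝ) ^ (i : ℕ)) * ((-1 : ℝ) ^ (j : ℕ) * ((-1 : ℝ) ^ (j : ℕ) *
          iteratedDeriv ((i : ℕ) + j) (TT P0) u)) := by
    ext i j
    have h := dv_neg ((i : ℕ) + j) u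
    unfold dv at h
    simp only [Matrix.of_apply]
    rw [h, pow_add]
    ring
  rw [e]
  have e2 := Matrix.det_mul_column (fun i : Fin m => (-1 : ℝ) ^ (i : ℕ))
    (Matrix.of fun i j : Fin m => ((-1 : ℝ) ^ (j : ℕ) * ((-1 : ℝ) ^ (j : ℕ) *
          iteratedDeriv ((i : ℕ) + j) (TT P0) u)))
  have e3 := Matrix.det_mul_row (fun i : Fin m => (-1 : ℝ) ^ (i : ℕ))
    (Matrix.of fun i j : Fin m => ((-1 : ℝ) ^ (j : ℕ) *
          iteratedDeriv ((i : ℕ) + j) (TT P0) u))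
  simp only [Matrix.of_apply] at e2 e3
  rw [e2, e3, ← mul_assoc, ← Finset.prod_mul_distrib]
  have : ∀ i : Fin m, (-1 : ℝ) ^ (i : ℕ) * (-1 : ℝ) ^ (i : ℕ) = 1 := by
    intro i
    rw [← mul_pow]; simp
  simp [this]

/-- All the sign-adjusted Wronskians are positive. -/
theorem T_pos (m : ℕ) (h1 : 1 ≤ m) (h4 : m ≤ 4) (u : ℝ) : 0 < T m (TT P0) u := by
  rcases le_total 0 u with hu | hu
  · exact T_nonneg_arg m h1 h4 u hu
  · rw [← T_neg]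
    exact T_nonneg_arg m h1 h4 (-u) (by linarith)

/-- Strict total positivity of order four. -/
theorem stp4 (r : ℕ) (hr : r ≤ 4) (x y : Fin r → ℝ) (hx : StrictMono x) (hy : StrictMono y) :
    0 < (Matrix.of fun i j => TT P0 (x i - y j)).det :=
  karlin r (TT P0) (TT_contDiff P0) (fun m h1 h2 u => T_pos m h1 (h2.trans hr) u) x y hx hy

end Pool.Agent.H94.PF
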