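import Mathlib

/-!
Numerical bounds for the Hankel determinants of the de Bruijn-Newman kernel.
-/

set_option linter.all false
namespace Pool.Agent.H94.PF
/-- The polynomials of the derivatives. -/
noncomputable def p0 (y : ℝ) : ℝ := (-3) * y + 2 * y ^ 2
noncomputable def p1 (y : ℝ) : ℝ := (-15) * y + 30 * y ^ 2 + (-8) * y ^ 3
noncomputable def p2 (y : ℝ) : ℝ := (-75) * y + 330 * y ^ 2 + (-224) * y ^ 3 + 32 * y ^ 4
noncomputable def p3 (y : ℝ) : ℝ := (-375) * y + 3270 * y ^ 2 + (-4232) * y ^ 3 + 1440 * y ^ 4 + (-128) * y ^ 5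
noncomputable def p4 (y : ℝ) : ℝ := (-1875) * y + 30930 * y ^ 2 + (-68096) * y ^ 3 + 41408 * y ^ 4 + (-8448) * y ^ 5 + 512 * y ^ 6
noncomputable def p5 (y : ℝ) : ℝ := (-9375) * y + 285870 * y ^ 2 + (-1008968) * y ^ 3 + 976320 * y ^ 4 + (-343040) * y ^ 5 + 46592 * y ^ 6 + (-2048) * y ^ 7
noncomputable def p6 (y : ℝ) : ℝ := (-46875) * y + 2610330 * y ^ 2 + (-14260064) * y ^ 3 + 20633312 * y ^ 4 + (-11109120) * y ^ 5 + 2536960 * y ^ 6 + (-245760) * y ^ 7 + 8192 * y ^ 8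

/-- 2x2 Hankel determinant. -/
def D2 (a0 a1 a2 : ℝ) : ℝ := a0 * a2 - a1 * a1
/-- 3x3 Hankel determinant. -/
def D3 (a0 a1 a2 a3 a4 : ℝ) : ℝ :=
  a0 * (a2 * a4 - a3 * a3) - a1 * (a1 * a4 - a2 * a3) + a2 * (a1 * a3 - a2 * a2)
/-- 4x4 Hankel determinant. -/
def D4 (a0 a1 a2 a3 a4 a5 a6 : ℝ) : ℝ :=
  (a0 * a2 - a1 * a1) * (a4 * a6 - a5 * a5) - (a0 * a3 - a1 * a2) * (a3 * a6 - a4 * a5)
  + (a0 * a4 - a1 * a3) * (a3 * a5 - a4 * a4) + (a1 * a3 - a2 * a2) * (a2 * a6 - a3 * a5)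
  - (a1 * a4 - a2 * a3) * (a2 * a5 - a3 * a4) + (a2 * a4 - a3 * a3) * (a2 * a4 - a3 * a3)

noncomputable def q20 (z : ℝ) : ℝ := 240 + (-192) * z + 64 * z ^ 2
lemma q20_shift (w : ℝ) : q20 (3 + w) = 240 + 192 * w + 64 * w ^ 2 := by unfold q20; ring
noncomputable def q21 (z : ℝ) : ℝ := (-4800) + 21696 * z + (-22400) * z ^ 2 + 9216 * z ^ 3
lemma q21_shift (w : ℝ) : q21 (3 + w) = 107520 + 136128 * w + 60544 * w ^ 2 + 9216 * w ^ 3 := by unfold q21; ring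
noncomputable def q22 (z : ℝ) : ℝ := 15360 + (-49152) * z + 65536 * z ^ 2
lemma q22_shift (w : ℝ) : q22 (3 + w) = 457728 + 344064 * w + 65536 * w ^ 2 := by unfold q22; ring
lemma D2_eq (z E : ℝ) : -D2 (p0 z + E * p0 (4 * z)) (p1 z + E * p1 (4 * z)) (p2 z + E * p2 (4 * z)) = z ^ 3 * (E ^ 0 * q20 z - E ^ 1 * q21 z + E ^ 2 * q22 z) := by
  unfold D2 p0 p1 p2 q20 q21 q22
  ring

noncomputable def q30 (z : ℝ) : ℝ := (-860160) + 737280 * z + (-294912) * z ^ 2 + 65536 * z ^ 3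
lemma q30_shift (w : ℝ) : q30 (3 + w) = 466944 + 737280 * w + 294912 * w ^ 2 + 65536 * w ^ 3 := by unfold q30; ring
noncomputable def q31 (z : ℝ) : ℝ := (-72253440) + 482181120 * z + (-792281088) * z ^ 2 + 579403776 * z ^ 3 + (-228261888) * z ^ 4 + 42467328 * z ^ 5
lemma q31_shift (w : ℝ) : q31 (3 + w) = 1718009856 + 3919380480 * w + 3562389504 * w ^ 2 + 1662320640 * w ^ 3 + 408748032 * w ^ 4 + 42467328 * w ^ 5 := by unfold q31; ring
noncomputable def q32 (z : ℝ) : ℝ := (-1156055040) + 6794772480 * z + (-16356999168) * z ^ 2 + 17334534144 * z ^ 3 + (-9739173888) * z ^ 4 + 2717908992 * z ^ 5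
lemma q32_shift (w : ℝ) : q32 (3 + w) = 211626491904 + 425607561216 * w + 347573846016 * w ^ 2 + 145076256768 * w ^ 3 + 31029460992 * w ^ 4 + 2717908992 * w ^ 5 := by unfold q32; ring
noncomputable def q33 (z : ℝ) : ℝ := (-3523215360) + 12079595520 * z + (-19327352832) * z ^ 2 + 17179869184 * z ^ 3
lemma q33_shift (w : ℝ) : q33 (3 + w) = 322625863680 + 359971946496 * w + 135291469824 * w ^ 2 + 17179869184 * w ^ 3 := by unfold q33; ring
lemma D3_eq (z E : ℝ) : -D3 (p0 z + E * p0 (4 * z)) (p1 z + E * p1 (4 * z)) (p2 z + E * p2 (4 * z)) (p3 z + E * p3 (4 * z)) (p4 z + E * p4 (4 * z)) = z ^ 6 * (E ^ 0 * q30 z + E ^ 1 * q31 z + E ^ 2 * q32 z + E ^ 3 * q33 z) := by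
  unfold D3 p0 p1 p2 p3 p4 q30 q31 q32 q33
  ring

noncomputable def q40 (z : ℝ) : ℝ := 190253629440 + (-169114337280) * z + 72477573120 * z ^ 2 + (-19327352832) * z ^ 3 + 3221225472 * z ^ 4
lemma q40_shift (w : ℝ) : q40 (3 + w) = 74289512448 + 91804925952 * w + 72477573120 * w ^ 2 + 19327352832 * w ^ 3 + 3221225472 * w ^ 4 := by unfold q40; ring
noncomputable def q41 (z : ℝ) : ℝ := (-64686234009600) + 577779133317120 * z + (-1280261970984960) * z ^ 2 + 1265256697430016 * z ^ 3 + (-709580405342208) * z ^ 4 + 253830956580864 * z ^ 5 + (-57663157174272) * z ^ 6 + 6262062317568 * z ^ 7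
lemma q41_shift (w : ℝ) : q41 (3 + w) = 171822582595584 + 1107412622770176 * w + 2218632734048256 * w ^ 2 + 2209919721799680 * w ^ 3 + 1231006614945792 * w ^ 4 + 399423905464320 * w ^ 5 + 73840151494656 * w ^ 6 + 6262062317568 * w ^ 7 := by unfold q41; ring
noncomputable def q42 (z : ℝ) : ℝ := 4346914925445120 + (-37786907521843200) * z + 137532283111342080 * z ^ 2 + (-239545916829204480) * z ^ 3 + 236972141570949120 * z ^ 4 + (-146582702621982720) * z ^ 5 + 59002194833178624 * z ^ 6 + (-14778467069460480) * z ^ 7 + 1803473947459584 * z ^ 8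
lemma q42_shift (w : ℝ) : q42 (3 + w) = 760868837838028800 + 2710926560587677696 * w + 4286444450944647168 * w ^ 2 + 3917581091069755392 * w ^ 3 + 2263573806176010240 * w ^ 4 + 849179136806092800 * w ^ 5 + 203129821134323712 * w ^ 6 + 28504907669569536 * w ^ 7 + 1803473947459584 * w ^ 8 := by unfold q42; ring
noncomputable def q43 (z : ℝ) : ℝ := (-66238703625830400) + 422802078176378880 * z + (-1252097041115381760) * z ^ 2 + 2140806451323469824 * z ^ 3 + (-2126333717206007808) * z ^ 4 + 1309722857843982336 * z ^ 5 + (-508713243846377472) * z ^ 6 + 102597629011034112 * z ^ 7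
lemma q43_shift (w : ℝ) : q43 (3 + w) = 47293751592122056704 + 133357501301070495744 * w + 162287421479505100800 * w ^ 2 + 110658985620047659008 * w ^ 3 + 45797980646620004352 * w ^ 4 + 11543836351694635008 * w ^ 5 + 1645836965385338880 * w ^ 6 + 102597629011034112 * w ^ 7 := by unfold q43; ring
noncomputable def q44 (z : ℝ) : ℝ := 199495389743677440 + (-709316941310853120) * z + 1215971899390033920 * z ^ 2 + (-1297036692682702848) * z ^ 3 + 864691128455135232 * z ^ 4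
lemma q44_shift (w : ℝ) : q44 (3 + w) = 44035282362754400256 + 64953165625750978560 * w + 36235962601823010816 * w ^ 2 + 9079256848778919936 * w ^ 3 + 864691128455135232 * w ^ 4 := by unfold q44; ring
lemma D4_eq (z E : ℝ) : D4 (p0 z + E * p0 (4 * z)) (p1 z + E * p1 (4 * z)) (p2 z + E * p2 (4 * z)) (p3 z + E * p3 (4 * z)) (p4 z + E * p4 (4 * z)) (p5 z + E * p5 (4 * z)) (p6 z + E * p6 (4 * z)) = z ^ 10 * (E ^ 0 * q40 z - E ^ 1 * q41 z + E ^ 2 * q42 z - E ^ 3 * q43 z + E ^ 4 * q44 z) := by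
  unfold D4 p0 p1 p2 p3 p4 p5 p6 q40 q41 q42 q43 q44
  ring

lemma p0_near (w : ℝ) (hw : 0 ≤ w) : |p0 (3 + w)| ≤ 9 * (1 + w / 2) ^ 2 := by
  rw [abs_le]
  constructor
  · have h : p0 (3 + w) + 9 * (1 + w / 2) ^ 2 = 18 + 18 * w + (17 / 4) * w ^ 2 := by unfold p0; ring
    have h2 : 0 ≤ 18 + 18 * w + (17 / 4) * w ^ 2 := by positivity
    linarith
  · have h : 9 * (1 + w / 2) ^ 2 - p0 (3 + w) = (1 / 4) * w ^ 2 := by unfold p0; ring
    have h2 : 0 ≤ (1 / 4) * w ^ 2 := by positivity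
    linarith

lemma p0_near4 (w : ℝ) (hw : 0 ≤ w) : |p0 (4 * (3 + w))| ≤ 252 * (1 + w / 2) ^ 8 := by
  rw [abs_le]
  constructor
  · have h : p0 (4 * (3 + w)) + 252 * (1 + w / 2) ^ 8 = 504 + 1188 * w + 1796 * w ^ 2 + 1764 * w ^ 3 + (2205 / 2) * w ^ 4 + 441 * w ^ 5 + (441 / 4) * w ^ 6 + (63 / 4) * w ^ 7 + (63 / 64) * w ^ 8 := by unfold p0; ring
    have h2 : 0 ≤ 504 + 1188 * w + 1796 * w ^ 2 + 1764 * w ^ 3 + (2205 / 2) * w ^ 4 + 441 * w ^ 5 + (441 / 4) * w ^ 6 + (63 / 4) * w ^ 7 + (63 / 64) * w ^ 8 := by positivity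
    linarith
  · have h : 252 * (1 + w / 2) ^ 8 - p0 (4 * (3 + w)) = 828 * w + 1732 * w ^ 2 + 1764 * w ^ 3 + (2205 / 2) * w ^ 4 + 441 * w ^ 5 + (441 / 4) * w ^ 6 + (63 / 4) * w ^ 7 + (63 / 64) * w ^ 8 := by unfold p0; ring
    have h2 : 0 ≤ 828 * w + 1732 * w ^ 2 + 1764 * w ^ 3 + (2205 / 2) * w ^ 4 + 441 * w ^ 5 + (441 / 4) * w ^ 6 + (63 / 4) * w ^ 7 + (63 / 64) * w ^ 8 := by positivity
    linarith

lemma p0_far (y : ℝ) (hy : 27 ≤ y) : |p0 y| ≤ 2 * y ^ 2 := by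
  obtain ⟨v, hv, rfl⟩ : ∃ v : ℝ, 0 ≤ v ∧ y = 27 + v := ⟨y - 27, by linarith, by ring⟩
  rw [abs_le]
  constructor
  · have h : p0 (27 + v) + 2 * (27 + v) ^ 2 = 2835 + 213 * v + 4 * v ^ 2 := by unfold p0; ring
    have h2 : 0 ≤ 2835 + 213 * v + 4 * v ^ 2 := by positivity
    linarith
  · have h : 2 * (27 + v) ^ 2 - p0 (27 + v) = 81 + 3 * v := by unfold p0; ring
    have h2 : 0 ≤ 81 + 3 * v := by positivity
    linarith

lemma p1_near (w : ℝ) (hw : 0 ≤ w) : |p1 (3 + w)| ≤ 64 * (1 + w / 2) ^ 3 := by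
  rw [abs_le]
  constructor
  · have h : p1 (3 + w) + 64 * (1 + w / 2) ^ 3 = 73 + 45 * w + 6 * w ^ 2 := by unfold p1; ring
    have h2 : 0 ≤ 73 + 45 * w + 6 * w ^ 2 := by positivity
    linarith
  · have h : 64 * (1 + w / 2) ^ 3 - p1 (3 + w) = 55 + 147 * w + 90 * w ^ 2 + 16 * w ^ 3 := by unfold p1; ring
    have h2 : 0 ≤ 55 + 147 * w + 90 * w ^ 2 + 16 * w ^ 3 := by positivity
    linarith

lemma p1_near4 (w : ℝ) (hw : 0 ≤ w) : |p1 (4 * (3 + w))| ≤ 9684 * (1 + w / 2) ^ 9 := by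
  rw [abs_le]
  constructor
  · have h : p1 (4 * (3 + w)) + 9684 * (1 + w / 2) ^ 9 = 32574 * w + 83028 * w ^ 2 + 101170 * w ^ 3 + (152523 / 2) * w ^ 4 + (152523 / 4) * w ^ 5 + (50841 / 4) * w ^ 6 + (21789 / 8) * w ^ 7 + (21789 / 64) * w ^ 8 + (2421 / 128) * w ^ 9 := by unfold p1; ring
    have h2 : 0 ≤ 32574 * w + 83028 * w ^ 2 + 101170 * w ^ 3 + (152523 / 2) * w ^ 4 + (152523 / 4) * w ^ 5 + (50841 / 4) * w ^ 6 + (21789 / 8) * w ^ 7 + (21789 / 64) * w ^ 8 + (2421 / 128) * w ^ 9 := by positivity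
    linarith
  · have h : 9684 * (1 + w / 2) ^ 9 - p1 (4 * (3 + w)) = 19368 + 54582 * w + 91284 * w ^ 2 + 102194 * w ^ 3 + (152523 / 2) * w ^ 4 + (152523 / 4) * w ^ 5 + (50841 / 4) * w ^ 6 + (21789 / 8) * w ^ 7 + (21789 / 64) * w ^ 8 + (2421 / 128) * w ^ 9 := by unfold p1; ring
    have h2 : 0 ≤ 19368 + 54582 * w + 91284 * w ^ 2 + 102194 * w ^ 3 + (152523 / 2) * w ^ 4 + (152523 / 4) * w ^ 5 + (50841 / 4) * w ^ 6 + (21789 / 8) * w ^ 7 + (21789 / 64) * w ^ 8 + (2421 / 128) * w ^ 9 := by positivity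
    linarith

lemma p1_far (y : ℝ) (hy : 27 ≤ y) : |p1 y| ≤ 8 * y ^ 3 := by
  obtain ⟨v, hv, rfl⟩ : ∃ v : ℝ, 0 ≤ v ∧ y = 27 + v := ⟨y - 27, by linarith, by ring⟩
  rw [abs_le]
  constructor
  · have h : p1 (27 + v) + 8 * (27 + v) ^ 3 = 21465 + 1605 * v + 30 * v ^ 2 := by unfold p1; ring
    have h2 : 0 ≤ 21465 + 1605 * v + 30 * v ^ 2 := by positivity
    linarith
  · have h : 8 * (27 + v) ^ 3 - p1 (27 + v) = 293463 + 33387 * v + 1266 * v ^ 2 + 16 * v ^ 3 := by unfold p1; ring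
    have h2 : 0 ≤ 293463 + 33387 * v + 1266 * v ^ 2 + 16 * v ^ 3 := by positivity
    linarith

lemma p2_near (w : ℝ) (hw : 0 ≤ w) : |p2 (3 + w)| ≤ 711 * (1 + w / 2) ^ 4 := by
  rw [abs_le]
  constructor
  · have h : p2 (3 + w) + 711 * (1 + w / 2) ^ 4 = 735 * w + (2217 / 2) * w ^ 2 + (1031 / 2) * w ^ 3 + (1223 / 16) * w ^ 4 := by unfold p2; ring
    have h2 : 0 ≤ 735 * w + (2217 / 2) * w ^ 2 + (1031 / 2) * w ^ 3 + (1223 / 16) * w ^ 4 := by positivity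
    linarith
  · have h : 711 * (1 + w / 2) ^ 4 - p2 (3 + w) = 1422 + 2109 * w + (2049 / 2) * w ^ 2 + (391 / 2) * w ^ 3 + (199 / 16) * w ^ 4 := by unfold p2; ring
    have h2 : 0 ≤ 1422 + 2109 * w + (2049 / 2) * w ^ 2 + (391 / 2) * w ^ 3 + (199 / 16) * w ^ 4 := by positivity
    linarith

lemma p2_near4 (w : ℝ) (hw : 0 ≤ w) : |p2 (4 * (3 + w))| ≤ 323100 * (1 + w / 2) ^ 10 := by
  rw [abs_le]
  constructor
  · have h : p2 (4 * (3 + w)) + 323100 * (1 + w / 2) ^ 10 = 646200 + 2144544 * w + 3953499 * w ^ 2 + 4930468 * w ^ 3 + (8497759 / 2) * w ^ 4 + (5088825 / 2) * w ^ 5 + (8481375 / 8) * w ^ 6 + (1211625 / 4) * w ^ 7 + (3634875 / 64) * w ^ 8 + (403875 / 64) * w ^ 9 + (80775 / 256) * w ^ 10 := by unfold p2; ring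
    have h2 : 0 ≤ 646200 + 2144544 * w + 3953499 * w ^ 2 + 4930468 * w ^ 3 + (8497759 / 2) * w ^ 4 + (5088825 / 2) * w ^ 5 + (8481375 / 8) * w ^ 6 + (1211625 / 4) * w ^ 7 + (3634875 / 64) * w ^ 8 + (403875 / 64) * w ^ 9 + (80775 / 256) * w ^ 10 := by positivity
    linarith
  · have h : 323100 * (1 + w / 2) ^ 10 - p2 (4 * (3 + w)) = 1086456 * w + 3316251 * w ^ 2 + 4762532 * w ^ 3 + (8464991 / 2) * w ^ 4 + (5088825 / 2) * w ^ 5 + (8481375 / 8) * w ^ 6 + (1211625 / 4) * w ^ 7 + (3634875 / 64) * w ^ 8 + (403875 / 64) * w ^ 9 + (80775 / 256) * w ^ 10 := by unfold p2; ring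
    have h2 : 0 ≤ 1086456 * w + 3316251 * w ^ 2 + 4762532 * w ^ 3 + (8464991 / 2) * w ^ 4 + (5088825 / 2) * w ^ 5 + (8481375 / 8) * w ^ 6 + (1211625 / 4) * w ^ 7 + (3634875 / 64) * w ^ 8 + (403875 / 64) * w ^ 9 + (80775 / 256) * w ^ 10 := by positivity
    linarith

lemma p2_far (y : ℝ) (hy : 27 ≤ y) : |p2 y| ≤ 32 * y ^ 4 := by
  obtain ⟨v, hv, rfl⟩ : ∃ v : ℝ, 0 ≤ v ∧ y = 27 + v := ⟨y - 27, by linarith, by ring⟩
  rw [abs_le]
  constructor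
  · have h : p2 (27 + v) + 32 * (27 + v) ^ 4 = 29841777 + 4566705 * v + 262122 * v ^ 2 + 6688 * v ^ 3 + 64 * v ^ 4 := by unfold p2; ring
    have h2 : 0 ≤ 29841777 + 4566705 * v + 262122 * v ^ 2 + 6688 * v ^ 3 + 64 * v ^ 4 := by positivity
    linarith
  · have h : 32 * (27 + v) ^ 4 - p2 (27 + v) = 4170447 + 472143 * v + 17814 * v ^ 2 + 224 * v ^ 3 := by unfold p2; ring
    have h2 : 0 ≤ 4170447 + 472143 * v + 17814 * v ^ 2 + 224 * v ^ 3 := by positivity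
    linarith

lemma p3_near (w : ℝ) (hw : 0 ≤ w) : |p3 (3 + w)| ≤ 4096 * (1 + w / 2) ^ 5 := by
  rw [abs_le]
  constructor
  · have h : p3 (3 + w) + 4096 * (1 + w / 2) ^ 5 = 3673 + 18901 * w + 18622 * w ^ 2 + 6648 * w ^ 3 + 800 * w ^ 4 := by unfold p3; ring
    have h2 : 0 ≤ 3673 + 18901 * w + 18622 * w ^ 2 + 6648 * w ^ 3 + 800 * w ^ 4 := by positivity
    linarith
  · have h : 4096 * (1 + w / 2) ^ 5 - p3 (3 + w) = 4519 + 1579 * w + 1858 * w ^ 2 + 3592 * w ^ 3 + 1760 * w ^ 4 + 256 * w ^ 5 := by unfold p3; ring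
    have h2 : 0 ≤ 4519 + 1579 * w + 1858 * w ^ 2 + 3592 * w ^ 3 + 1760 * w ^ 4 + 256 * w ^ 5 := by positivity
    linarith

lemma p3_near4 (w : ℝ) (hw : 0 ≤ w) : |p3 (4 * (3 + w))| ≤ 8837172 * (1 + w / 2) ^ 11 := by
  rw [abs_le]
  constructor
  · have h : p3 (4 * (3 + w)) + 8837172 * (1 + w / 2) ^ 11 = 28332930 * w + 103642923 * w ^ 2 + (349246049 / 2) * w ^ 3 + (361338465 / 2) * w ^ 4 + (509822395 / 4) * w ^ 5 + (510346683 / 8) * w ^ 6 + (364533345 / 16) * w ^ 7 + (364533345 / 64) * w ^ 8 + (121511115 / 128) * w ^ 9 + (24302223 / 256) * w ^ 10 + (2209293 / 512) * w ^ 11 := by unfold p3; ring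
    have h2 : 0 ≤ 28332930 * w + 103642923 * w ^ 2 + (349246049 / 2) * w ^ 3 + (361338465 / 2) * w ^ 4 + (509822395 / 4) * w ^ 5 + (510346683 / 8) * w ^ 6 + (364533345 / 16) * w ^ 7 + (364533345 / 64) * w ^ 8 + (121511115 / 128) * w ^ 9 + (24302223 / 256) * w ^ 10 + (2209293 / 512) * w ^ 11 := by positivity
    linarith
  · have h : 8837172 * (1 + w / 2) ^ 11 - p3 (4 * (3 + w)) = 17674344 + 68875962 * w + 139379307 * w ^ 2 + (379820641 / 2) * w ^ 3 + (367728225 / 2) * w ^ 4 + (510870971 / 4) * w ^ 5 + (510346683 / 8) * w ^ 6 + (364533345 / 16) * w ^ 7 + (364533345 / 64) * w ^ 8 + (121511115 / 128) * w ^ 9 + (24302223 / 256) * w ^ 10 + (2209293 / 512) * w ^ 11 := by unfold p3; ring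
    have h2 : 0 ≤ 17674344 + 68875962 * w + 139379307 * w ^ 2 + (379820641 / 2) * w ^ 3 + (367728225 / 2) * w ^ 4 + (510870971 / 4) * w ^ 5 + (510346683 / 8) * w ^ 6 + (364533345 / 16) * w ^ 7 + (364533345 / 64) * w ^ 8 + (121511115 / 128) * w ^ 9 + (24302223 / 256) * w ^ 10 + (2209293 / 512) * w ^ 11 := by positivity
    linarith

lemma p3_far (y : ℝ) (hy : 27 ≤ y) : |p3 y| ≤ 128 * y ^ 5 := by
  obtain ⟨v, hv, rfl⟩ : ∃ v : ℝ, 0 ≤ v ∧ y = 27 + v := ⟨y - 27, by linarith, by ring⟩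
  rw [abs_le]
  constructor
  · have h : p3 (27 + v) + 128 * (27 + v) ^ 5 = 684350289 + 104294901 * v + 5959038 * v ^ 2 + 151288 * v ^ 3 + 1440 * v ^ 4 := by unfold p3; ring
    have h2 : 0 ≤ 684350289 + 104294901 * v + 5959038 * v ^ 2 + 151288 * v ^ 3 + 1440 * v ^ 4 := by positivity
    linarith
  · have h : 128 * (27 + v) ^ 5 - p3 (27 + v) = 2988969903 + 575949579 * v + 44429442 * v ^ 2 + 1714952 * v ^ 3 + 33120 * v ^ 4 + 256 * v ^ 5 := by unfold p3; ring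
    have h2 : 0 ≤ 2988969903 + 575949579 * v + 44429442 * v ^ 2 + 1714952 * v ^ 3 + 33120 * v ^ 4 + 256 * v ^ 5 := by positivity
    linarith

lemma p4_near (w : ℝ) (hw : 0 ≤ w) : |p4 (3 + w)| ≤ 108585 * (1 + w / 2) ^ 6 := by
  rw [abs_le]
  constructor
  · have h : p4 (3 + w) + 108585 * (1 + w / 2) ^ 6 = 217170 + 467988 * w + (1609647 / 4) * w ^ 2 + (432845 / 2) * w ^ 3 + (1369703 / 16) * w ^ 4 + (338043 / 16) * w ^ 5 + (141353 / 64) * w ^ 6 := by unfold p4; ring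
    have h2 : 0 ≤ 217170 + 467988 * w + (1609647 / 4) * w ^ 2 + (432845 / 2) * w ^ 3 + (1369703 / 16) * w ^ 4 + (338043 / 16) * w ^ 5 + (141353 / 64) * w ^ 6 := by positivity
    linarith
  · have h : 108585 * (1 + w / 2) ^ 6 - p4 (3 + w) = 183522 * w + (1647903 / 4) * w ^ 2 + (653005 / 2) * w ^ 3 + (1887847 / 16) * w ^ 4 + (313467 / 16) * w ^ 5 + (75817 / 64) * w ^ 6 := by unfold p4; ring
    have h2 : 0 ≤ 183522 * w + (1647903 / 4) * w ^ 2 + (653005 / 2) * w ^ 3 + (1887847 / 16) * w ^ 4 + (313467 / 16) * w ^ 5 + (75817 / 64) * w ^ 6 := by positivity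
    linarith

lemma p4_near4 (w : ℝ) (hw : 0 ≤ w) : |p4 (4 * (3 + w))| ≤ 172088892 * (1 + w / 2) ^ 12 := by
  rw [abs_le]
  constructor
  · have h : p4 (4 * (3 + w)) + 172088892 * (1 + w / 2) ^ 12 = 344177784 + 1616766684 * w + 3585499134 * w ^ 2 + 5209186162 * w ^ 3 + (21951819137 / 4) * w ^ 4 + 4288298061 * w ^ 5 + (9946522121 / 4) * w ^ 6 + (4259200077 / 4) * w ^ 7 + (21296000385 / 64) * w ^ 8 + (2366222265 / 32) * w ^ 9 + (1419733359 / 128) * w ^ 10 + (129066669 / 128) * w ^ 11 + (43022223 / 1024) * w ^ 12 := by unfold p4; ring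
    have h2 : 0 ≤ 344177784 + 1616766684 * w + 3585499134 * w ^ 2 + 5209186162 * w ^ 3 + (21951819137 / 4) * w ^ 4 + 4288298061 * w ^ 5 + (9946522121 / 4) * w ^ 6 + (4259200077 / 4) * w ^ 7 + (21296000385 / 64) * w ^ 8 + (2366222265 / 32) * w ^ 9 + (1419733359 / 128) * w ^ 10 + (129066669 / 128) * w ^ 11 + (43022223 / 1024) * w ^ 12 := by positivity
    linarith
  · have h : 172088892 * (1 + w / 2) ^ 12 - p4 (4 * (3 + w)) = 448300020 * w + 2093434302 * w ^ 2 + 4255702898 * w ^ 3 + (20640181633 / 4) * w ^ 4 + 4230102093 * w ^ 5 + (9929744905 / 4) * w ^ 6 + (4259200077 / 4) * w ^ 7 + (21296000385 / 64) * w ^ 8 + (2366222265 / 32) * w ^ 9 + (1419733359 / 128) * w ^ 10 + (129066669 / 128) * w ^ 11 + (43022223 / 1024) * w ^ 12 := by unfold p4; ring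
    have h2 : 0 ≤ 448300020 * w + 2093434302 * w ^ 2 + 4255702898 * w ^ 3 + (20640181633 / 4) * w ^ 4 + 4230102093 * w ^ 5 + (9929744905 / 4) * w ^ 6 + (4259200077 / 4) * w ^ 7 + (21296000385 / 64) * w ^ 8 + (2366222265 / 32) * w ^ 9 + (1419733359 / 128) * w ^ 10 + (129066669 / 128) * w ^ 11 + (43022223 / 1024) * w ^ 12 := by positivity
    linarith

lemma p4_far (y : ℝ) (hy : 27 ≤ y) : |p4 y| ≤ 512 * y ^ 6 := by
  obtain ⟨v, hv, rfl⟩ : ∃ v : ℝ, 0 ≤ v ∧ y = 27 + v := ⟨y - 27, by linarith, by ring⟩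
  rw [abs_le]
  constructor
  · have h : p4 (27 + v) + 512 * (27 + v) ^ 6 = 296187087105 + 68824493817 * v + 6675747666 * v ^ 2 + 345925888 * v ^ 3 + 10098368 * v ^ 4 + 157440 * v ^ 5 + 1024 * v ^ 6 := by unfold p4; ring
    have h2 : 0 ≤ 296187087105 + 68824493817 * v + 6675747666 * v ^ 2 + 345925888 * v ^ 3 + 10098368 * v ^ 4 + 157440 * v ^ 5 + 1024 * v ^ 6 := by positivity
    linarith
  · have h : 512 * (27 + v) ^ 6 - p4 (27 + v) = 100531493631 + 19335190791 * v + 1487186094 * v ^ 2 + 57181952 * v ^ 3 + 1099072 * v ^ 4 + 8448 * v ^ 5 := by unfold p4; ring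
    have h2 : 0 ≤ 100531493631 + 19335190791 * v + 1487186094 * v ^ 2 + 57181952 * v ^ 3 + 1099072 * v ^ 4 + 8448 * v ^ 5 := by positivity
    linarith

lemma p5_near (w : ℝ) (hw : 0 ≤ w) : |p5 (3 + w)| ≤ 512361 * (1 + w / 2) ^ 7 := by
  rw [abs_le]
  constructor
  · have h : p5 (3 + w) + 512361 * (1 + w / 2) ^ 7 = 1024722 + (497049 / 2) * w + (615477 / 4) * w ^ 2 + (11427611 / 8) * w ^ 3 + (20897115 / 16) * w ^ 4 + (14232989 / 32) * w ^ 5 + (3815903 / 64) * w ^ 6 + (250217 / 128) * w ^ 7 := by unfold p5; ring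
    have h2 : 0 ≤ 1024722 + (497049 / 2) * w + (615477 / 4) * w ^ 2 + (11427611 / 8) * w ^ 3 + (20897115 / 16) * w ^ 4 + (14232989 / 32) * w ^ 5 + (3815903 / 64) * w ^ 6 + (250217 / 128) * w ^ 7 := by positivity
    linarith
  · have h : 512361 * (1 + w / 2) ^ 7 - p5 (3 + w) = (6676005 / 2) * w + (20903685 / 4) * w ^ 2 + (24437659 / 8) * w ^ 3 + (14968155 / 16) * w ^ 4 + (7286173 / 32) * w ^ 5 + (3357151 / 64) * w ^ 6 + (774505 / 128) * w ^ 7 := by unfold p5; ring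
    have h2 : 0 ≤ (6676005 / 2) * w + (20903685 / 4) * w ^ 2 + (24437659 / 8) * w ^ 3 + (14968155 / 16) * w ^ 4 + (7286173 / 32) * w ^ 5 + (3357151 / 64) * w ^ 6 + (774505 / 128) * w ^ 7 := by positivity
    linarith

lemma p5_near4 (w : ℝ) (hw : 0 ≤ w) : |p5 (4 * (3 + w))| ≤ 1533950395 * (1 + w / 2) ^ 13 := by
  rw [abs_le]
  constructor
  · have h : p5 (4 * (3 + w)) + 1533950395 * (1 + w / 2) ^ 13 = 456572455 + (7 / 2) * w + (17263467837 / 2) * w ^ 2 + (136344303477 / 4) * w ^ 3 + (921341214025 / 16) * w ^ 4 + (1869940538141 / 32) * w ^ 5 + (649843883615 / 16) * w ^ 6 + (656990977631 / 32) * w ^ 7 + (1974194158365 / 256) * w ^ 8 + (1096774532425 / 512) * w ^ 9 + (219354906485 / 512) * w ^ 10 + (59824065405 / 1024) * w ^ 11 + (19941355135 / 4096) * w ^ 12 + (1533950395 / 8192) * w ^ 13 := by unfold p5; ring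
    have h2 : 0 ≤ 456572455 + (7 / 2) * w + (17263467837 / 2) * w ^ 2 + (136344303477 / 4) * w ^ 3 + (921341214025 / 16) * w ^ 4 + (1869940538141 / 32) * w ^ 5 + (649843883615 / 16) * w ^ 6 + (656990977631 / 32) * w ^ 7 + (1974194158365 / 256) * w ^ 8 + (1096774532425 / 512) * w ^ 9 + (219354906485 / 512) * w ^ 10 + (59824065405 / 1024) * w ^ 11 + (19941355135 / 4096) * w ^ 12 + (1533950395 / 8192) * w ^ 13 := by positivity
    linarith
  · have h : 1533950395 * (1 + w / 2) ^ 13 - p5 (4 * (3 + w)) = 2611328335 + (39882710263 / 2) * w + (102384662973 / 2) * w ^ 2 + (302365509493 / 4) * w ^ 3 + (1272207850825 / 16) * w ^ 4 + (2078447778589 / 32) * w ^ 5 + (666285555295 / 16) * w ^ 6 + (659138461279 / 32) * w ^ 7 + (1974194158365 / 256) * w ^ 8 + (1096774532425 / 512) * w ^ 9 + (219354906485 / 512) * w ^ 10 + (59824065405 / 1024) * w ^ 11 + (19941355135 / 4096) * w ^ 12 + (1533950395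 / 8192) * w ^ 13 := by unfold p5; ring
    have h2 : 0 ≤ 2611328335 + (39882710263 / 2) * w + (102384662973 / 2) * w ^ 2 + (302365509493 / 4) * w ^ 3 + (1272207850825 / 16) * w ^ 4 + (2078447778589 / 32) * w ^ 5 + (666285555295 / 16) * w ^ 6 + (659138461279 / 32) * w ^ 7 + (1974194158365 / 256) * w ^ 8 + (1096774532425 / 512) * w ^ 9 + (219354906485 / 512) * w ^ 10 + (59824065405 / 1024) * w ^ 11 + (19941355135 / 4096) * w ^ 12 + (1533950395 / 8192) * w ^ 13 := by positivity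
    linarith

lemma p5_far (y : ℝ) (hy : 27 ≤ y) : |p5 y| ≤ 2048 * y ^ 7 := by
  obtain ⟨v, hv, rfl⟩ : ∃ v : ℝ, 0 ≤ v ∧ y = 27 + v := ⟨y - 27, by linarith, by ring⟩
  rw [abs_le]
  constructor
  · have h : p5 (27 + v) + 2048 * (27 + v) ^ 7 = 13627651472289 + 3174414487293 * v + 308081906022 * v ^ 2 + 15945078712 * v ^ 3 + 464149440 * v ^ 4 + 7204864 * v ^ 5 + 46592 * v ^ 6 := by unfold p5; ring
    have h2 : 0 ≤ 13627651472289 + 3174414487293 * v + 308081906022 * v ^ 2 + 15945078712 * v ^ 3 + 464149440 * v ^ 4 + 7204864 * v ^ 5 + 46592 * v ^ 6 := by positivity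
    linarith
  · have h : 2048 * (27 + v) ^ 7 - p5 (27 + v) = 29217955247199 + 7933705773315 * v + 926153678490 * v ^ 2 + 60242303048 * v ^ 3 + 2357605440 * v ^ 4 + 55500800 * v ^ 5 + 727552 * v ^ 6 + 4096 * v ^ 7 := by unfold p5; ring
    have h2 : 0 ≤ 29217955247199 + 7933705773315 * v + 926153678490 * v ^ 2 + 60242303048 * v ^ 3 + 2357605440 * v ^ 4 + 55500800 * v ^ 5 + 727552 * v ^ 6 + 4096 * v ^ 7 := by positivity
    linarith

lemma p6_near (w : ℝ) (hw : 0 ≤ w) : |p6 (3 + w)| ≤ 24172839 * (1 + w / 2) ^ 8 := by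
  rw [abs_le]
  constructor
  · have h : p6 (3 + w) + 24172839 * (1 + w / 2) ^ 8 = 44590461 * w + 153724299 * w ^ 2 + 187434289 * w ^ 3 + (931581781 / 8) * w ^ 4 + (171185169 / 4) * w ^ 5 + (160256017 / 16) * w ^ 6 + (23386407 / 16) * w ^ 7 + (26269991 / 256) * w ^ 8 := by unfold p6; ring
    have h2 : 0 ≤ 44590461 * w + 153724299 * w ^ 2 + 187434289 * w ^ 3 + (931581781 / 8) * w ^ 4 + (171185169 / 4) * w ^ 5 + (160256017 / 16) * w ^ 6 + (23386407 / 16) * w ^ 7 + (26269991 / 256) * w ^ 8 := by positivity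
    linarith
  · have h : 24172839 * (1 + w / 2) ^ 8 - p6 (3 + w) = 48345678 + 148792251 * w + 184695447 * w ^ 2 + 150985457 * w ^ 3 + (760516949 / 8) * w ^ 4 + (167234577 / 4) * w ^ 5 + (178163729 / 16) * w ^ 6 + (24959271 / 16) * w ^ 7 + (22075687 / 256) * w ^ 8 := by unfold p6; ring
    have h2 : 0 ≤ 48345678 + 148792251 * w + 184695447 * w ^ 2 + 150985457 * w ^ 3 + (760516949 / 8) * w ^ 4 + (167234577 / 4) * w ^ 5 + (178163729 / 16) * w ^ 6 + (24959271 / 16) * w ^ 7 + (22075687 / 256) * w ^ 8 := by positivity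
    linarith

lemma p6_near4 (w : ℝ) (hw : 0 ≤ w) : |p6 (4 * (3 + w))| ≤ 69011367588 * (1 + w / 2) ^ 14 := by
  rw [abs_le]
  constructor
  · have h : p6 (4 * (3 + w)) + 69011367588 * (1 + w / 2) ^ 14 = 418329584592 * w + 1812375679155 * w ^ 2 + 3680544826918 * w ^ 3 + (19175970452945 / 4) * w ^ 4 + (18175708935633 / 4) * w ^ 5 + (52788295246195 / 16) * w ^ 6 + (7436902654005 / 4) * w ^ 7 + (51844643955059 / 64) * w ^ 8 + (17270094738897 / 64) * w ^ 9 + (17270094738897 / 256) * w ^ 10 + (1570008612627 / 128) * w ^ 11 + (1570008612627 / 1024) * w ^ 12 + (120769893279 / 1024) * w ^ 13 + (17252841897 / 4096) * w ^ 14 := by unfold p6; ring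
    have h2 : 0 ≤ 418329584592 * w + 1812375679155 * w ^ 2 + 3680544826918 * w ^ 3 + (19175970452945 / 4) * w ^ 4 + (18175708935633 / 4) * w ^ 5 + (52788295246195 / 16) * w ^ 6 + (7436902654005 / 4) * w ^ 7 + (51844643955059 / 64) * w ^ 8 + (17270094738897 / 64) * w ^ 9 + (17270094738897 / 256) * w ^ 10 + (1570008612627 / 128) * w ^ 11 + (1570008612627 / 1024) * w ^ 12 + (120769893279 / 1024) * w ^ 13 + (17252841897 / 4096) * w ^ 14 := by positivity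
    linarith
  · have h : 69011367588 * (1 + w / 2) ^ 14 - p6 (4 * (3 + w)) = 138022735176 + 547829561640 * w + 1327641546099 * w ^ 2 + 2599489623590 * w ^ 3 + (15364219024849 / 4) * w ^ 4 + (16364480542161 / 4) * w ^ 5 + (50832273187187 / 16) * w ^ 6 + (7366035693621 / 4) * w ^ 7 + (51775924478323 / 64) * w ^ 8 + (17270094738897 / 64) * w ^ 9 + (17270094738897 / 256) * w ^ 10 + (1570008612627 / 128) * w ^ 11 + (1570008612627 / 1024) * w ^ 12 + (120769893279 / 1024) * w ^ 13 + (17252841897 / 4096) * w ^ 14 := by unfold p6; ring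
    have h2 : 0 ≤ 138022735176 + 547829561640 * w + 1327641546099 * w ^ 2 + 2599489623590 * w ^ 3 + (15364219024849 / 4) * w ^ 4 + (16364480542161 / 4) * w ^ 5 + (50832273187187 / 16) * w ^ 6 + (7366035693621 / 4) * w ^ 7 + (51775924478323 / 64) * w ^ 8 + (17270094738897 / 64) * w ^ 9 + (17270094738897 / 256) * w ^ 10 + (1570008612627 / 128) * w ^ 11 + (1570008612627 / 1024) * w ^ 12 + (120769893279 / 1024) * w ^ 13 + (17252841897 / 4096) * w ^ 14 := by positivity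
    linarith

lemma p6_far (y : ℝ) (hy : 27 ≤ y) : |p6 y| ≤ 8192 * y ^ 8 := by
  obtain ⟨v, hv, rfl⟩ : ∃ v : ℝ, 0 ≤ v ∧ y = 27 + v := ⟨y - 27, by linarith, by ring⟩
  rw [abs_le]
  constructor
  · have h : p6 (27 + v) + 8192 * (27 + v) ^ 8 = 2890742285364849 + 895062064865217 * v + 121801947051642 * v ^ 2 + 9513864988960 * v ^ 3 + 466456320992 * v ^ 4 + 14696769792 * v ^ 5 + 290518528 * v ^ 6 + 3293184 * v ^ 7 + 16384 * v ^ 8 := by unfold p6; ring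
    have h2 : 0 ≤ 2890742285364849 + 895062064865217 * v + 121801947051642 * v ^ 2 + 9513864988960 * v ^ 3 + 466456320992 * v ^ 4 + 14696769792 * v ^ 5 + 290518528 * v ^ 6 + 3293184 * v ^ 7 + 16384 * v ^ 8 := by positivity
    linarith
  · have h : 8192 * (27 + v) ^ 8 - p6 (27 + v) = 1736583240339855 + 475997350158399 * v + 55927977118086 * v ^ 2 + 3651314579168 * v ^ 3 + 143042733088 * v ^ 4 + 3362461440 * v ^ 5 + 43911680 * v ^ 6 + 245760 * v ^ 7 := by unfold p6; ring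
    have h2 : 0 ≤ 1736583240339855 + 475997350158399 * v + 55927977118086 * v ^ 2 + 3651314579168 * v ^ 3 + 143042733088 * v ^ 4 + 3362461440 * v ^ 5 + 43911680 * v ^ 6 + 245760 * v ^ 7 := by positivity
    linarith


/-- `y` is bounded by `s`, and `x` is within `δ d` of `y`. -/
def Near (δ x y s d : ℝ) : Prop := |y| ≤ s ∧ |x - y| ≤ δ * d

lemma Near.mul {δ x1 y1 s1 d1 x2 y2 s2 d2 : ℝ} (h1 : Near δ x1 y1 s1 d1) (h2 : Near δ x2 y2 s2 d2)
    (hδ : 0 < δ) (hδ1 : δ ≤ 1) :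
    Near δ (x1 * x2) (y1 * y2) (s1 * s2) (s1 * d2 + d1 * s2 + d1 * d2) := by
  obtain ⟨a1, b1⟩ := h1
  obtain ⟨a2, b2⟩ := h2
  have s1n : 0 ≤ s1 := (abs_nonneg _).trans a1
  have s2n : 0 ≤ s2 := (abs_nonneg _).trans a2
  have d1n : 0 ≤ d1 := by
    have := (abs_nonneg _).trans b1
    exact nonneg_of_mul_nonneg_right this hδ
  have d2n : 0 ≤ d2 := by
    have := (abs_nonneg _).trans b2
    exact nonneg_of_mul_nonneg_right this hδ
  constructor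
  · rw [abs_mul]
    exact mul_le_mul a1 a2 (abs_nonneg _) s1n
  · have e : x1 * x2 - y1 * y2 = (x1 - y1) * (x2 - y2) + (x1 - y1) * y2 + y1 * (x2 - y2) := by ring
    rw [e]
    have t1 : |(x1 - y1) * (x2 - y2)| ≤ δ * (d1 * d2) := by
      rw [abs_mul]
      calc |x1 - y1| * |x2 - y2| ≤ (δ * d1) * (δ * d2) := mul_le_mul b1 b2 (abs_nonneg _) (by positivity)
        _ = δ * (δ * (d1 * d2)) := by ring
        _ ≤ δ * (1 * (d1 * d2)) := by gcongr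
        _ = _ := by ring
    have t2 : |(x1 - y1) * y2| ≤ δ * (d1 * s2) := by
      rw [abs_mul]
      calc |x1 - y1| * |y2| ≤ (δ * d1) * s2 := mul_le_mul b1 a2 (abs_nonneg _) (by positivity)
        _ = _ := by ring
    have t3 : |y1 * (x2 - y2)| ≤ δ * (s1 * d2) := by
      rw [abs_mul]
      calc |y1| * |x2 - y2| ≤ s1 * (δ * d2) := mul_le_mul a1 b2 (abs_nonneg _) (by positivity)
        _ = _ := by ring
    calc |(x1 - y1) * (x2 - y2) + (x1 - y1) * y2 + y1 * (x2 - y2)|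
        ≤ |(x1 - y1) * (x2 - y2)| + |(x1 - y1) * y2| + |y1 * (x2 - y2)| := abs_add_three _ _ _
      _ ≤ δ * (d1 * d2) + δ * (d1 * s2) + δ * (s1 * d2) := by linarith
      _ = _ := by ring

lemma Near.add {δ x1 y1 s1 d1 x2 y2 s2 d2 : ℝ} (h1 : Near δ x1 y1 s1 d1)
    (h2 : Near δ x2 y2 s2 d2) : Near δ (x1 + x2) (y1 + y2) (s1 + s2) (d1 + d2) := by
  obtain ⟨a1, b1⟩ := h1
  obtain ⟨a2, b2⟩ := h2
  constructor
  · exact (abs_add_le _ _).trans (by linarith)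
  · have e : x1 + x2 - (y1 + y2) = (x1 - y1) + (x2 - y2) := by ring
    rw [e]
    exact (abs_add_le _ _).trans (by linarith)

lemma Near.sub {δ x1 y1 s1 d1 x2 y2 s2 d2 : ℝ} (h1 : Near δ x1 y1 s1 d1)
    (h2 : Near δ x2 y2 s2 d2) : Near δ (x1 - x2) (y1 - y2) (s1 + s2) (d1 + d2) := by
  obtain ⟨a1, b1⟩ := h1
  obtain ⟨a2, b2⟩ := h2
  constructor
  · exact (abs_sub _ _).trans (by linarith)
  · have e : x1 - x2 - (y1 - y2) = (x1 - y1) - (x2 - y2) := by ring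
    rw [e]
    exact (abs_sub _ _).trans (by linarith)

lemma exp_bound_aux : (8000 : ℝ) ≤ Real.exp 9 := by
  have h := Real.exp_one_gt_d9
  have e : Real.exp 9 = Real.exp 1 ^ 9 := by
    rw [← Real.exp_nat_mul]; norm_num
  rw [e]
  calc (8000 : ℝ) ≤ 2.7182818283 ^ 9 := by norm_num
    _ ≤ _ := by gcongr

lemma exp_bound_aux2 : (25000000000 : ℝ) ≤ Real.exp 24 := by
  have h := Real.exp_one_gt_d9
  have e : Real.exp 24 = Real.exp 1 ^ 24 := by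
    rw [← Real.exp_nat_mul]; norm_num
  rw [e]
  calc (25000000000 : ℝ) ≤ 2.7182818283 ^ 24 := by norm_num
    _ ≤ _ := by gcongr

lemma exp3_lower (w : ℝ) (hw : 0 ≤ w) :
    1 + 3 * w + 9 / 2 * w ^ 2 + 9 / 2 * w ^ 3 ≤ Real.exp (3 * w) := by
  have h := Real.sum_le_exp_of_nonneg (x := 3 * w) (by positivity) 4
  simp [Finset.sum_range_succ, Nat.factorial] at h
  nlinarith [h]

lemma exp_pow_lower (w : ℝ) (hw : 0 ≤ w) (n : ℕ) : (1 + w / 2) ^ (2 * n) ≤ Real.exp (n * w) := by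
  have h : 1 + w / 2 ≤ Real.exp (w / 2) := by
    have := Real.add_one_le_exp (w / 2)
    linarith
  calc (1 + w / 2) ^ (2 * n) ≤ (Real.exp (w / 2)) ^ (2 * n) := by gcongr
    _ = _ := by
      rw [← Real.exp_nat_mul]; congr 1; push_cast; ring

/-- Setup: basic bounds for `E = e^{-3(3+w)}`. -/
lemma E_bounds (w : ℝ) (hw : 0 ≤ w) :
    0 < Real.exp (-3 * (3 + w)) ∧ Real.exp (-3 * (3 + w)) ≤ 1 / 8000 ∧
    Real.exp (-3 * (3 + w)) * (1 + 3 * w + 9 / 2 * w ^ 2 + 9 / 2 * w ^ 3) ≤ 1 / 8000 ∧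
    Real.exp (-3 * (3 + w)) * (1 + w / 2) ^ 6 ≤ 1 / 8000 := by
  have e1 : Real.exp (-3 * (3 + w)) = Real.exp (-9) * Real.exp (-(3 * w)) := by
    rw [← Real.exp_add]; congr 1; ring
  have e2 : Real.exp (-9) ≤ 1 / 8000 := by
    rw [Real.exp_neg, inv_eq_one_div]
    exact one_div_le_one_div_of_le (by norm_num) exp_bound_aux
  have e3 : Real.exp (-(3 * w)) * Real.exp (3 * w) = 1 := by
    rw [← Real.exp_add]; simp
  have h1 := exp3_lower w hw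
  have h2 := exp_pow_lower w hw 3
  have p1 := Real.exp_pos (-(3 * w))
  have p2 := Real.exp_pos (-9 : ℝ)
  have h3 : Real.exp (-(3 * w)) ≤ 1 := by
    rw [Real.exp_le_one_iff]; linarith
  refine ⟨Real.exp_pos _, ?_, ?_, ?_⟩
  · rw [e1]; nlinarith
  · rw [e1]
    have : Real.exp (-(3 * w)) * (1 + 3 * w + 9 / 2 * w ^ 2 + 9 / 2 * w ^ 3) ≤ 1 := by
      calc _ ≤ Real.exp (-(3 * w)) * Real.exp (3 * w) := by gcongr
        _ = 1 := e3
    have h0 : 0 ≤ Real.exp (-(3 * w)) * (1 + 3 * w + 9 / 2 * w ^ 2 + 9 / 2 * w ^ 3) := by positivity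
    calc _ = Real.exp (-9) * (Real.exp (-(3 * w)) * (1 + 3 * w + 9 / 2 * w ^ 2 + 9 / 2 * w ^ 3)) := by ring
      _ ≤ 1 / 8000 * 1 := by gcongr
      _ = _ := by ring
  · rw [e1]
    have : Real.exp (-(3 * w)) * (1 + w / 2) ^ 6 ≤ 1 := by
      have h4 : (1 + w / 2) ^ 6 ≤ Real.exp (3 * w) := by simpa using h2
      calc _ ≤ Real.exp (-(3 * w)) * Real.exp (3 * w) := by gcongr
        _ = 1 := e3
    calc _ = Real.exp (-9) * (Real.exp (-(3 * w)) * (1 + w / 2) ^ 6) := by ring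
      _ ≤ 1 / 8000 * 1 := by gcongr
      _ = _ := by ring

lemma delta_bounds (w : ℝ) (hw : 0 ≤ w) :
    0 < Real.exp (-8 * w) ∧ Real.exp (-8 * w) ≤ 1 ∧ Real.exp (-8 * w) * (1 + w / 2) ^ 16 ≤ 1 := by
  refine ⟨Real.exp_pos _, ?_, ?_⟩
  · rw [Real.exp_le_one_iff]; linarith
  · have h2 := exp_pow_lower w hw 8
    have e3 : Real.exp (-8 * w) * Real.exp (8 * w) = 1 := by
      rw [← Real.exp_add]; simp
    have h4 : (1 + w / 2) ^ 16 ≤ Real.exp (8 * w) := by simpa using h2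
    calc _ ≤ Real.exp (-8 * w) * Real.exp (8 * w) := by gcongr
      _ = 1 := e3

lemma main_norm (k : ℕ) (P1 P2 s b w E : ℝ) (hw : 0 ≤ w) (hE0 : 0 < E)
    (hE : E * (1 + w / 2) ^ 6 ≤ 1 / 8000)
    (h1 : |P1| ≤ s * (1 + w / 2) ^ (k + 2)) (h2 : |P2| ≤ b * (1 + w / 2) ^ (k + 8)) (hb : 0 ≤ b) :
    |P1 + E * P2| ≤ (s + b / 8000) * (1 + w / 2) ^ (k + 2) := by
  have hg : 0 < 1 + w / 2 := by positivity
  have h3 : |E * P2| ≤ b / 8000 * (1 + w / 2) ^ (k + 2) := by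
    rw [abs_mul, abs_of_pos hE0]
    calc E * |P2| ≤ E * (b * (1 + w / 2) ^ (k + 8)) := by gcongr
      _ = (E * (1 + w / 2) ^ 6) * (b * (1 + w / 2) ^ (k + 2)) := by ring
      _ ≤ (1 / 8000) * (b * (1 + w / 2) ^ (k + 2)) := by gcongr
      _ = _ := by ring
  calc |P1 + E * P2| ≤ |P1| + |E * P2| := abs_add_le _ _
    _ ≤ _ := by linarith

lemma near_norm (k : ℕ) (M R S ρ δ w : ℝ) (hw : 0 ≤ w)
    (h1 : |M| ≤ S * (1 + w / 2) ^ (k + 2)) (h2 : |R| ≤ ρ * δ * (1 + w / 2) ^ (k + 2)) :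
    Near δ ((M + R) / (1 + w / 2) ^ (k + 2)) (M / (1 + w / 2) ^ (k + 2)) S ρ := by
  have hg : 0 < (1 + w / 2) ^ (k + 2) := by positivity
  constructor
  · rw [abs_div, abs_of_pos hg, div_le_iff₀ hg]
    exact h1
  · have e : (M + R) / (1 + w / 2) ^ (k + 2) - M / (1 + w / 2) ^ (k + 2)
        = R / (1 + w / 2) ^ (k + 2) := by ring
    rw [e, abs_div, abs_of_pos hg, div_le_iff₀ hg]
    linarith


lemma comb4 (E Q0 Q1 Q2 Q3 Q4 Z : ℝ) (hE0 : 0 < E) (hE1 : E ≤ 1 / 8000) (hp0 : 0 ≤ Q0)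
    (hp2 : 0 ≤ Q2) (hp3 : 0 ≤ Q3) (hp4 : 0 ≤ Q4) (hZ : (59049 : ℝ) ≤ Z)
    (hq : E * (Q1 + Q3 / 64000000) ≤ Q0 / 2) :
    59049 * (Q0 / 2) ≤ Z * (E ^ 0 * Q0 - E ^ 1 * Q1 + E ^ 2 * Q2 - E ^ 3 * Q3 + E ^ 4 * Q4) := by
  have hE2 : E ^ 3 * Q3 ≤ E * (Q3 / 64000000) := by
    have : E ^ 2 ≤ 1 / 64000000 := by
      calc E ^ 2 ≤ (1 / 8000) ^ 2 := by gcongr
        _ = _ := by norm_num
    calc E ^ 3 * Q3 = E * (E ^ 2 * Q3) := by ring
      _ ≤ E * ((1 / 64000000) * Q3) := by gcongr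
      _ = _ := by ring
  have hq2 : 0 ≤ E ^ 2 * Q2 := by positivity
  have hq4 : 0 ≤ E ^ 4 * Q4 := by positivity
  have hin : Q0 / 2 ≤ E ^ 0 * Q0 - E ^ 1 * Q1 + E ^ 2 * Q2 - E ^ 3 * Q3 + E ^ 4 * Q4 := by
    rw [pow_zero, one_mul, pow_one]
    rw [mul_add] at hq
    linarith
  gcongr

lemma D2_homog (g a0 a1 a2 : ℝ) : D2 (g ^ 2 * a0) (g ^ 3 * a1) (g ^ 4 * a2) = g ^ 6 * D2 a0 a1 a2 := by
  unfold D2; ring
lemma D3_homog (g a0 a1 a2 a3 a4 : ℝ) : D3 (g ^ 2 * a0) (g ^ 3 * a1) (g ^ 4 * a2) (g ^ 5 * a3)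
    (g ^ 6 * a4) = g ^ 12 * D3 a0 a1 a2 a3 a4 := by
  unfold D3; ring
lemma D4_homog (g a0 a1 a2 a3 a4 a5 a6 : ℝ) : D4 (g ^ 2 * a0) (g ^ 3 * a1) (g ^ 4 * a2)
    (g ^ 5 * a3) (g ^ 6 * a4) (g ^ 7 * a5) (g ^ 8 * a6) = g ^ 20 * D4 a0 a1 a2 a3 a4 a5 a6 := by
  unfold D4; ring

lemma resc {g : ℝ} (hg : 0 < g) (k : ℕ) (x : ℝ) : g ^ k * (x / g ^ k) = x := by
  have : g ^ k ≠ 0 := by positivity
  field_simp

lemma pert2 (g δ X0 X1 X2 M0 M1 M2 : ℝ) (hg : 0 < g) (hδ : 0 < δ) (hδ1 : δ ≤ 1)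
    (n0 : Near δ (X0 / g ^ 2) (M0 / g ^ 2) 10 (1 / 10000000))
    (n1 : Near δ (X1 / g ^ 3) (M1 / g ^ 3) 66 (1 / 100000))
    (n2 : Near δ (X2 / g ^ 4) (M2 / g ^ 4) 752 (1 / 1000)) :
    |D2 X0 X1 X2 - D2 M0 M1 M2| ≤ g ^ 6 * (δ * 1) := by
  have hN := (n0.mul n2 hδ hδ1).sub (n1.mul n1 hδ hδ1)
  have h : |D2 (X0 / g ^ 2) (X1 / g ^ 3) (X2 / g ^ 4) - D2 (M0 / g ^ 2) (M1 / g ^ 3) (M2 / g ^ 4)| ≤ δ * 1 := by
    refine hN.2.trans ?_
    apply mul_le_mul_of_nonneg_left _ hδ.le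
    norm_num
  have e1 := D2_homog g (X0 / g ^ 2) (X1 / g ^ 3) (X2 / g ^ 4)
  have e2 := D2_homog g (M0 / g ^ 2) (M1 / g ^ 3) (M2 / g ^ 4)
  simp only [resc hg] at e1 e2
  rw [e1, e2, ← mul_sub, abs_mul, abs_of_pos (pow_pos hg _)]
  gcongr

lemma pert3 (g δ X0 X1 X2 X3 X4 M0 M1 M2 M3 M4 : ℝ) (hg : 0 < g) (hδ : 0 < δ) (hδ1 : δ ≤ 1)
    (n0 : Near δ (X0 / g ^ 2) (M0 / g ^ 2) 10 (1 / 10000000))
    (n1 : Near δ (X1 / g ^ 3) (M1 / g ^ 3) 66 (1 / 100000))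
    (n2 : Near δ (X2 / g ^ 4) (M2 / g ^ 4) 752 (1 / 1000))
    (n3 : Near δ (X3 / g ^ 5) (M3 / g ^ 5) 5201 (1 / 10))
    (n4 : Near δ (X4 / g ^ 6) (M4 / g ^ 6) 130097 9) :
    |D3 X0 X1 X2 X3 X4 - D3 M0 M1 M2 M3 M4| ≤ g ^ 12 * (δ * 1000000) := by
  have hN := ((n0.mul ((n2.mul n4 hδ hδ1).sub (n3.mul n3 hδ hδ1)) hδ hδ1).sub (n1.mul ((n1.mul n4 hδ hδ1).sub (n2.mul n3 hδ hδ1)) hδ hδ1)).add (n2.mul ((n1.mul n3 hδ hδ1).sub (n2.mul n2 hδ hδ1)) hδ hδ1)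
  have h : |D3 (X0 / g ^ 2) (X1 / g ^ 3) (X2 / g ^ 4) (X3 / g ^ 5) (X4 / g ^ 6) - D3 (M0 / g ^ 2) (M1 / g ^ 3) (M2 / g ^ 4) (M3 / g ^ 5) (M4 / g ^ 6)| ≤ δ * 1000000 := by
    refine hN.2.trans ?_
    apply mul_le_mul_of_nonneg_left _ hδ.le
    norm_num
  have e1 := D3_homog g (X0 / g ^ 2) (X1 / g ^ 3) (X2 / g ^ 4) (X3 / g ^ 5) (X4 / g ^ 6)
  have e2 := D3_homog g (M0 / g ^ 2) (M1 / g ^ 3) (M2 / g ^ 4) (M3 / g ^ 5) (M4 / g ^ 6)
  simp only [resc hg] at e1 e2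
  rw [e1, e2, ← mul_sub, abs_mul, abs_of_pos (pow_pos hg _)]
  gcongr

lemma pert4 (g δ X0 X1 X2 X3 X4 X5 X6 M0 M1 M2 M3 M4 M5 M6 : ℝ) (hg : 0 < g) (hδ : 0 < δ) (hδ1 : δ ≤ 1)
    (n0 : Near δ (X0 / g ^ 2) (M0 / g ^ 2) 10 (1 / 10000000))
    (n1 : Near δ (X1 / g ^ 3) (M1 / g ^ 3) 66 (1 / 100000))
    (n2 : Near δ (X2 / g ^ 4) (M2 / g ^ 4) 752 (1 / 1000))
    (n3 : Near δ (X3 / g ^ 5) (M3 / g ^ 5) 5201 (1 / 10))
    (n4 : Near δ (X4 / g ^ 6) (M4 / g ^ 6) 130097 9)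
    (n5 : Near δ (X5 / g ^ 7) (M5 / g ^ 7) 704105 900)
    (n6 : Near δ (X6 / g ^ 8) (M6 / g ^ 8) 32799260 94000) :
    |D4 X0 X1 X2 X3 X4 X5 X6 - D4 M0 M1 M2 M3 M4 M5 M6| ≤ g ^ 20 * (δ * 500000000000000) := by
  have hN := (((((((n0.mul n2 hδ hδ1).sub (n1.mul n1 hδ hδ1)).mul ((n4.mul n6 hδ hδ1).sub (n5.mul n5 hδ hδ1)) hδ hδ1).sub (((n0.mul n3 hδ hδ1).sub (n1.mul n2 hδ hδ1)).mul ((n3.mul n6 hδ hδ1).sub (n4.mul n5 hδ hδ1)) hδ hδ1)).add (((n0.mul n4 hδ hδ1).sub (n1.mul n3 hδ hδ1)).mul ((n3.mul n5 hδ hδ1).sub (n4.mul n4 hδ hδ1)) hδ hδ1)).add (((n1.mul n3 hδ hδ1).sub (n2.mul n2 hδ hδ1)).mul ((n2.mul n6 hδ hδ1).sub (n3.mul n5 hδ hδ1)) hδ hδ1)).sub (((n1.mul n4 hδ hδ1).sub (n2.mul n3 hδ hδ1)).mul ((n2.mul n5 hδ hδ1).sub (n3.mul n4 hδ hδ1)) hδ hδ1)).add (((n2.mul n4 hδ hδ1).sub (n3.mul n3 hδ hδ1)).mul ((n2.mul n4 hδ hδ1).sub (n3.mul n3 hδ hδ1)) hδ hδ1)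
  have h : |D4 (X0 / g ^ 2) (X1 / g ^ 3) (X2 / g ^ 4) (X3 / g ^ 5) (X4 / g ^ 6) (X5 / g ^ 7) (X6 / g ^ 8) - D4 (M0 / g ^ 2) (M1 / g ^ 3) (M2 / g ^ 4) (M3 / g ^ 5) (M4 / g ^ 6) (M5 / g ^ 7) (M6 / g ^ 8)| ≤ δ * 500000000000000 := by
    refine hN.2.trans ?_
    apply mul_le_mul_of_nonneg_left _ hδ.le
    norm_num
  have e1 := D4_homog g (X0 / g ^ 2) (X1 / g ^ 3) (X2 / g ^ 4) (X3 / g ^ 5) (X4 / g ^ 6) (X5 / g ^ 7) (X6 / g ^ 8)
  have e2 := D4_homog g (M0 / g ^ 2) (M1 / g ^ 3) (M2 / g ^ 4) (M3 / g ^ 5) (M4 / g ^ 6) (M5 / g ^ 7) (M6 / g ^ 8)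
  simp only [resc hg] at e1 e2
  rw [e1, e2, ← mul_sub, abs_mul, abs_of_pos (pow_pos hg _)]
  gcongr

lemma pos2 (w E δ R0 R1 R2 : ℝ) (hw : 0 ≤ w) (hE0 : 0 < E) (hE1 : E ≤ 1 / 8000)
    (hE3 : E * (1 + 3 * w + 9 / 2 * w ^ 2 + 9 / 2 * w ^ 3) ≤ 1 / 8000)
    (hE6 : E * (1 + w / 2) ^ 6 ≤ 1 / 8000) (hδ : 0 < δ) (hδ1 : δ ≤ 1)
    (hδ16 : δ * (1 + w / 2) ^ 16 ≤ 1)
    (h0 : |R0| ≤ (1 / 10000000) * δ * (1 + w / 2) ^ (0 + 2))
    (h1 : |R1| ≤ (1 / 100000) * δ * (1 + w / 2) ^ (1 + 2))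
    (h2 : |R2| ≤ (1 / 1000) * δ * (1 + w / 2) ^ (2 + 2)) :
    0 < -D2 (p0 (3 + w) + E * p0 (4 * (3 + w)) + R0) (p1 (3 + w) + E * p1 (4 * (3 + w)) + R1) (p2 (3 + w) + E * p2 (4 * (3 + w)) + R2) := by
  have hg : 0 < 1 + w / 2 := by positivity
  have hg1 : 1 ≤ 1 + w / 2 := by linarith
  have m0 : |p0 (3 + w) + E * p0 (4 * (3 + w))| ≤ 10 * (1 + w / 2) ^ (0 + 2) :=
    (main_norm 0 _ _ 9 252 w E hw hE0 hE6 (p0_near w hw) (p0_near4 w hw) (by norm_num)).trans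
      (mul_le_mul_of_nonneg_right (by norm_num) (by positivity))
  have n0 := near_norm 0 _ R0 _ _ δ w hw m0 h0
  have m1 : |p1 (3 + w) + E * p1 (4 * (3 + w))| ≤ 66 * (1 + w / 2) ^ (1 + 2) :=
    (main_norm 1 _ _ 64 9684 w E hw hE0 hE6 (p1_near w hw) (p1_near4 w hw) (by norm_num)).trans
      (mul_le_mul_of_nonneg_right (by norm_num) (by positivity))
  have n1 := near_norm 1 _ R1 _ _ δ w hw m1 h1
  have m2 : |p2 (3 + w) + E * p2 (4 * (3 + w))| ≤ 752 * (1 + w / 2) ^ (2 + 2) :=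
    (main_norm 2 _ _ 711 323100 w E hw hE0 hE6 (p2_near w hw) (p2_near4 w hw) (by norm_num)).trans
      (mul_le_mul_of_nonneg_right (by norm_num) (by positivity))
  have n2 := near_norm 2 _ R2 _ _ δ w hw m2 h2
  have hl : (3240 : ℝ) ≤ -D2 (p0 (3 + w) + E * p0 (4 * (3 + w))) (p1 (3 + w) + E * p1 (4 * (3 + w))) (p2 (3 + w) + E * p2 (4 * (3 + w))) := by
    rw [D2_eq (3 + w) E, q20_shift, q21_shift, q22_shift]
    have hq : E * (107520 + 136128 * w + 60544 * w ^ 2 + 9216 * w ^ 3) ≤ 120 := by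
      have h1 : (107520 + 136128 * w + 60544 * w ^ 2 + 9216 * w ^ 3) ≤ 107520 * (1 + 3 * w + 9 / 2 * w ^ 2 + 9 / 2 * w ^ 3) := by
        have : 0 ≤ (107520 * 3 - 136128) * w + (107520 * 9 / 2 - 60544) * w ^ 2 + (107520 * 9 / 2 - 9216) * w ^ 3 := by
          norm_num; positivity
        linarith
      calc E * (107520 + 136128 * w + 60544 * w ^ 2 + 9216 * w ^ 3)
          ≤ E * (107520 * (1 + 3 * w + 9 / 2 * w ^ 2 + 9 / 2 * w ^ 3)) := by gcongr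
        _ = 107520 * (E * (1 + 3 * w + 9 / 2 * w ^ 2 + 9 / 2 * w ^ 3)) := by ring
        _ ≤ 107520 * (1 / 8000) := by gcongr
        _ ≤ 120 := by norm_num
    have hq2 : 0 ≤ E ^ 2 * (457728 + 344064 * w + 65536 * w ^ 2) := by positivity
    have hz : (27 : ℝ) ≤ (3 + w) ^ 3 := by
      calc (27 : ℝ) = 3 ^ 3 := by norm_num
        _ ≤ (3 + w) ^ 3 := by gcongr; linarith
    have hin : (120 : ℝ) ≤ E ^ 0 * (240 + 192 * w + 64 * w ^ 2) - E ^ 1 * (107520 + 136128 * w + 60544 * w ^ 2 + 9216 * w ^ 3) + E ^ 2 * (457728 + 344064 * w + 65536 * w ^ 2) := by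
      have : 0 ≤ 192 * w + 64 * w ^ 2 := by positivity
      rw [pow_zero, one_mul, pow_one]
      linarith
    calc (3240 : ℝ) = 27 * 120 := by norm_num
      _ ≤ _ := by gcongr
  have hp := pert2 (1 + w / 2) δ _ _ _ _ _ _ hg hδ hδ1 n0 n1 n2
  have hδ6 : (1 + w / 2) ^ 6 * δ ≤ 1 := by
    calc (1 + w / 2) ^ 6 * δ ≤ (1 + w / 2) ^ 16 * δ := by gcongr; norm_num
      _ ≤ 1 := by linarith
  have hp2 : (1 + w / 2) ^ 6 * (δ * 1) ≤ 1 := by linarith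
  have := (abs_le.1 (hp.trans hp2)).2
  linarith

lemma pos3 (w E δ R0 R1 R2 R3 R4 : ℝ) (hw : 0 ≤ w) (hE0 : 0 < E) (hE1 : E ≤ 1 / 8000)
    (hE3 : E * (1 + 3 * w + 9 / 2 * w ^ 2 + 9 / 2 * w ^ 3) ≤ 1 / 8000)
    (hE6 : E * (1 + w / 2) ^ 6 ≤ 1 / 8000) (hδ : 0 < δ) (hδ1 : δ ≤ 1)
    (hδ16 : δ * (1 + w / 2) ^ 16 ≤ 1)
    (h0 : |R0| ≤ (1 / 10000000) * δ * (1 + w / 2) ^ (0 + 2))
    (h1 : |R1| ≤ (1 / 100000) * δ * (1 + w / 2) ^ (1 + 2))
    (h2 : |R2| ≤ (1 / 1000) * δ * (1 + w / 2) ^ (2 + 2))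
    (h3 : |R3| ≤ (1 / 10) * δ * (1 + w / 2) ^ (3 + 2))
    (h4 : |R4| ≤ 9 * δ * (1 + w / 2) ^ (4 + 2)) :
    0 < -D3 (p0 (3 + w) + E * p0 (4 * (3 + w)) + R0) (p1 (3 + w) + E * p1 (4 * (3 + w)) + R1) (p2 (3 + w) + E * p2 (4 * (3 + w)) + R2) (p3 (3 + w) + E * p3 (4 * (3 + w)) + R3) (p4 (3 + w) + E * p4 (4 * (3 + w)) + R4) := by
  have hg : 0 < 1 + w / 2 := by positivity
  have hg1 : 1 ≤ 1 + w / 2 := by linarith
  have m0 : |p0 (3 + w) + E * p0 (4 * (3 + w))| ≤ 10 * (1 + w / 2) ^ (0 + 2) :=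
    (main_norm 0 _ _ 9 252 w E hw hE0 hE6 (p0_near w hw) (p0_near4 w hw) (by norm_num)).trans
      (mul_le_mul_of_nonneg_right (by norm_num) (by positivity))
  have n0 := near_norm 0 _ R0 _ _ δ w hw m0 h0
  have m1 : |p1 (3 + w) + E * p1 (4 * (3 + w))| ≤ 66 * (1 + w / 2) ^ (1 + 2) :=
    (main_norm 1 _ _ 64 9684 w E hw hE0 hE6 (p1_near w hw) (p1_near4 w hw) (by norm_num)).trans
      (mul_le_mul_of_nonneg_right (by norm_num) (by positivity))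
  have n1 := near_norm 1 _ R1 _ _ δ w hw m1 h1
  have m2 : |p2 (3 + w) + E * p2 (4 * (3 + w))| ≤ 752 * (1 + w / 2) ^ (2 + 2) :=
    (main_norm 2 _ _ 711 323100 w E hw hE0 hE6 (p2_near w hw) (p2_near4 w hw) (by norm_num)).trans
      (mul_le_mul_of_nonneg_right (by norm_num) (by positivity))
  have n2 := near_norm 2 _ R2 _ _ δ w hw m2 h2
  have m3 : |p3 (3 + w) + E * p3 (4 * (3 + w))| ≤ 5201 * (1 + w / 2) ^ (3 + 2) :=
    (main_norm 3 _ _ 4096 8837172 w E hw hE0 hE6 (p3_near w hw) (p3_near4 w hw) (by norm_num)).trans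
      (mul_le_mul_of_nonneg_right (by norm_num) (by positivity))
  have n3 := near_norm 3 _ R3 _ _ δ w hw m3 h3
  have m4 : |p4 (3 + w) + E * p4 (4 * (3 + w))| ≤ 130097 * (1 + w / 2) ^ (4 + 2) :=
    (main_norm 4 _ _ 108585 172088892 w E hw hE0 hE6 (p4_near w hw) (p4_near4 w hw) (by norm_num)).trans
      (mul_le_mul_of_nonneg_right (by norm_num) (by positivity))
  have n4 := near_norm 4 _ R4 _ _ δ w hw m4 h4
  have hl : (340000000 : ℝ) ≤ -D3 (p0 (3 + w) + E * p0 (4 * (3 + w))) (p1 (3 + w) + E * p1 (4 * (3 + w))) (p2 (3 + w) + E * p2 (4 * (3 + w))) (p3 (3 + w) + E * p3 (4 * (3 + w))) (p4 (3 + w) + E * p4 (4 * (3 + w))) := by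
    rw [D3_eq (3 + w) E, q30_shift, q31_shift, q32_shift, q33_shift]
    have h1 : 0 ≤ E ^ 1 * (1718009856 + 3919380480 * w + 3562389504 * w ^ 2 + 1662320640 * w ^ 3 + 408748032 * w ^ 4 + 42467328 * w ^ 5) := by positivity
    have h2 : 0 ≤ E ^ 2 * (211626491904 + 425607561216 * w + 347573846016 * w ^ 2 + 145076256768 * w ^ 3 + 31029460992 * w ^ 4 + 2717908992 * w ^ 5) := by positivity
    have h3 : 0 ≤ E ^ 3 * (322625863680 + 359971946496 * w + 135291469824 * w ^ 2 + 17179869184 * w ^ 3) := by positivity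
    have hz : (729 : ℝ) ≤ (3 + w) ^ 6 := by
      calc (729 : ℝ) = 3 ^ 6 := by norm_num
        _ ≤ (3 + w) ^ 6 := by gcongr; linarith
    have hin : (466944 : ℝ) ≤ E ^ 0 * (466944 + 737280 * w + 294912 * w ^ 2 + 65536 * w ^ 3) + E ^ 1 * (1718009856 + 3919380480 * w + 3562389504 * w ^ 2 + 1662320640 * w ^ 3 + 408748032 * w ^ 4 + 42467328 * w ^ 5) + E ^ 2 * (211626491904 + 425607561216 * w + 347573846016 * w ^ 2 + 145076256768 * w ^ 3 + 31029460992 * w ^ 4 + 2717908992 * w ^ 5) + E ^ 3 * (322625863680 + 359971946496 * w + 135291469824 * w ^ 2 + 17179869184 * w ^ 3) := by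
      have : 0 ≤ 737280 * w + 294912 * w ^ 2 + 65536 * w ^ 3 := by positivity
      rw [pow_zero, one_mul]
      linarith
    calc (340000000 : ℝ) ≤ 729 * 466944 := by norm_num
      _ ≤ _ := by gcongr
  have hp := pert3 (1 + w / 2) δ _ _ _ _ _ _ _ _ _ _ hg hδ hδ1 n0 n1 n2 n3 n4
  have hδ6 : (1 + w / 2) ^ 12 * δ ≤ 1 := by
    calc (1 + w / 2) ^ 12 * δ ≤ (1 + w / 2) ^ 16 * δ := by gcongr; norm_num
      _ ≤ 1 := by linarith
  have hp2 : (1 + w / 2) ^ 12 * (δ * 1000000) ≤ 1000000 := by linarith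
  have := (abs_le.1 (hp.trans hp2)).2
  linarith

lemma pos4 (w E δ R0 R1 R2 R3 R4 R5 R6 : ℝ) (hw : 0 ≤ w) (hE0 : 0 < E) (hE1 : E ≤ 1 / 8000)
    (hE3 : E * (1 + 3 * w + 9 / 2 * w ^ 2 + 9 / 2 * w ^ 3) ≤ 1 / 8000)
    (hE6 : E * (1 + w / 2) ^ 6 ≤ 1 / 8000) (hδ : 0 < δ) (hδ1 : δ ≤ 1)
    (hδ16 : δ * (1 + w / 2) ^ 16 ≤ 1)
    (h0 : |R0| ≤ (1 / 10000000) * δ * (1 + w / 2) ^ (0 + 2))
    (h1 : |R1| ≤ (1 / 100000) * δ * (1 + w / 2) ^ (1 + 2))
    (h2 : |R2| ≤ (1 / 1000) * δ * (1 + w / 2) ^ (2 + 2))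
    (h3 : |R3| ≤ (1 / 10) * δ * (1 + w / 2) ^ (3 + 2))
    (h4 : |R4| ≤ 9 * δ * (1 + w / 2) ^ (4 + 2))
    (h5 : |R5| ≤ 900 * δ * (1 + w / 2) ^ (5 + 2))
    (h6 : |R6| ≤ 94000 * δ * (1 + w / 2) ^ (6 + 2)) :
    0 < D4 (p0 (3 + w) + E * p0 (4 * (3 + w)) + R0) (p1 (3 + w) + E * p1 (4 * (3 + w)) + R1) (p2 (3 + w) + E * p2 (4 * (3 + w)) + R2) (p3 (3 + w) + E * p3 (4 * (3 + w)) + R3) (p4 (3 + w) + E * p4 (4 * (3 + w)) + R4) (p5 (3 + w) + E * p5 (4 * (3 + w)) + R5) (p6 (3 + w) + E * p6 (4 * (3 + w)) + R6) := by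
  have hg : 0 < 1 + w / 2 := by positivity
  have hg1 : 1 ≤ 1 + w / 2 := by linarith
  have m0 : |p0 (3 + w) + E * p0 (4 * (3 + w))| ≤ 10 * (1 + w / 2) ^ (0 + 2) :=
    (main_norm 0 _ _ 9 252 w E hw hE0 hE6 (p0_near w hw) (p0_near4 w hw) (by norm_num)).trans
      (mul_le_mul_of_nonneg_right (by norm_num) (by positivity))
  have n0 := near_norm 0 _ R0 _ _ δ w hw m0 h0
  have m1 : |p1 (3 + w) + E * p1 (4 * (3 + w))| ≤ 66 * (1 + w / 2) ^ (1 + 2) :=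
    (main_norm 1 _ _ 64 9684 w E hw hE0 hE6 (p1_near w hw) (p1_near4 w hw) (by norm_num)).trans
      (mul_le_mul_of_nonneg_right (by norm_num) (by positivity))
  have n1 := near_norm 1 _ R1 _ _ δ w hw m1 h1
  have m2 : |p2 (3 + w) + E * p2 (4 * (3 + w))| ≤ 752 * (1 + w / 2) ^ (2 + 2) :=
    (main_norm 2 _ _ 711 323100 w E hw hE0 hE6 (p2_near w hw) (p2_near4 w hw) (by norm_num)).trans
      (mul_le_mul_of_nonneg_right (by norm_num) (by positivity))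
  have n2 := near_norm 2 _ R2 _ _ δ w hw m2 h2
  have m3 : |p3 (3 + w) + E * p3 (4 * (3 + w))| ≤ 5201 * (1 + w / 2) ^ (3 + 2) :=
    (main_norm 3 _ _ 4096 8837172 w E hw hE0 hE6 (p3_near w hw) (p3_near4 w hw) (by norm_num)).trans
      (mul_le_mul_of_nonneg_right (by norm_num) (by positivity))
  have n3 := near_norm 3 _ R3 _ _ δ w hw m3 h3
  have m4 : |p4 (3 + w) + E * p4 (4 * (3 + w))| ≤ 130097 * (1 + w / 2) ^ (4 + 2) :=
    (main_norm 4 _ _ 108585 172088892 w E hw hE0 hE6 (p4_near w hw) (p4_near4 w hw) (by norm_num)).trans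
      (mul_le_mul_of_nonneg_right (by norm_num) (by positivity))
  have n4 := near_norm 4 _ R4 _ _ δ w hw m4 h4
  have m5 : |p5 (3 + w) + E * p5 (4 * (3 + w))| ≤ 704105 * (1 + w / 2) ^ (5 + 2) :=
    (main_norm 5 _ _ 512361 1533950395 w E hw hE0 hE6 (p5_near w hw) (p5_near4 w hw) (by norm_num)).trans
      (mul_le_mul_of_nonneg_right (by norm_num) (by positivity))
  have n5 := near_norm 5 _ R5 _ _ δ w hw m5 h5
  have m6 : |p6 (3 + w) + E * p6 (4 * (3 + w))| ≤ 32799260 * (1 + w / 2) ^ (6 + 2) :=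
    (main_norm 6 _ _ 24172839 69011367588 w E hw hE0 hE6 (p6_near w hw) (p6_near4 w hw) (by norm_num)).trans
      (mul_le_mul_of_nonneg_right (by norm_num) (by positivity))
  have n6 := near_norm 6 _ R6 _ _ δ w hw m6 h6
  have hl : (59049 : ℝ) * ((74289512448 + 91804925952 * w + 72477573120 * w ^ 2 + 19327352832 * w ^ 3 + 3221225472 * w ^ 4) / 2) ≤ D4 (p0 (3 + w) + E * p0 (4 * (3 + w))) (p1 (3 + w) + E * p1 (4 * (3 + w))) (p2 (3 + w) + E * p2 (4 * (3 + w))) (p3 (3 + w) + E * p3 (4 * (3 + w))) (p4 (3 + w) + E * p4 (4 * (3 + w))) (p5 (3 + w) + E * p5 (4 * (3 + w))) (p6 (3 + w) + E * p6 (4 * (3 + w))) := by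
    rw [D4_eq (3 + w) E, q40_shift, q41_shift, q42_shift, q43_shift, q44_shift]
    have hz : (59049 : ℝ) ≤ (3 + w) ^ 10 := by
      calc (59049 : ℝ) = 3 ^ 10 := by norm_num
        _ ≤ (3 + w) ^ 10 := by gcongr; linarith
    have p0 : 0 ≤ 74289512448 + 91804925952 * w + 72477573120 * w ^ 2 + 19327352832 * w ^ 3 + 3221225472 * w ^ 4 := by positivity
    apply comb4 E _ _ _ _ _ _ hE0 hE1 p0 (by positivity) (by positivity) (by positivity) hz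
    have h1 : (171822582595584 + 1107412622770176 * w + 2218632734048256 * w ^ 2 + 2209919721799680 * w ^ 3 + 1231006614945792 * w ^ 4 + 399423905464320 * w ^ 5 + 73840151494656 * w ^ 6 + 6262062317568 * w ^ 7) + (47293751592122056704 + 133357501301070495744 * w + 162287421479505100800 * w ^ 2 + 110658985620047659008 * w ^ 3 + 45797980646620004352 * w ^ 4 + 11543836351694635008 * w ^ 5 + 1645836965385338880 * w ^ 6 + 102597629011034112 * w ^ 7) / 64000000 ≤ 4000 * (74289512448 + 91804925952 * w + 72477573120 * w ^ 2 + 19327352832 * w ^ 3 + 3221225472 * w ^ 4) * (1 + 3 * w + 9 / 2 * w ^ 2 + 9 / 2 * w ^ 3) := by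
      have : 0 ≤ 4000 * (74289512448 + 91804925952 * w + 72477573120 * w ^ 2 + 19327352832 * w ^ 3 + 3221225472 * w ^ 4) * (1 + 3 * w + 9 / 2 * w ^ 2 + 9 / 2 * w ^ 3) - ((171822582595584 + 1107412622770176 * w + 2218632734048256 * w ^ 2 + 2209919721799680 * w ^ 3 + 1231006614945792 * w ^ 4 + 399423905464320 * w ^ 5 + 73840151494656 * w ^ 6 + 6262062317568 * w ^ 7) + (47293751592122056704 + 133357501301070495744 * w + 162287421479505100800 * w ^ 2 + 110658985620047659008 * w ^ 3 + 45797980646620004352 * w ^ 4 + 11543836351694635008 * w ^ 5 + 1645836965385338880 * w ^ 6 + 102597629011034112 * w ^ 7) / 64000000) := by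
        have e : 4000 * (74289512448 + 91804925952 * w + 72477573120 * w ^ 2 + 19327352832 * w ^ 3 + 3221225472 * w ^ 4) * (1 + 3 * w + 9 / 2 * w ^ 2 + 9 / 2 * w ^ 3) - ((171822582595584 + 1107412622770176 * w + 2218632734048256 * w ^ 2 + 2209919721799680 * w ^ 3 + 1231006614945792 * w ^ 4 + 399423905464320 * w ^ 5 + 73840151494656 * w ^ 6 + 6262062317568 * w ^ 7) + (47293751592122056704 + 133357501301070495744 * w + 162287421479505100800 * w ^ 2 + 110658985620047659008 * w ^ 3 + 45797980646620004352 * w ^ 4 + 11543836351694635008 * w ^ 5 + 1645836965385338880 * w ^ 6 + 102597629011034112 * w ^ 7) / 64000000) = (1946820348871704576 / 15625) + (2331211241499918336 / 15625) * w + (317257595599454208 / 625) * w ^ 2 + (26954553304968855552 / 15625) * w ^ 3 + (30783998605853196288 / 15625) * w ^ 4 + (20180298357698199552 / 15625) * w ^ 5 + (1037526693046124544 / 3125) * w ^ 6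 + (808099892038729728 / 15625) * w ^ 7 := by
          ring
        rw [e]; positivity
      linarith only [this]
    calc E * ((171822582595584 + 1107412622770176 * w + 2218632734048256 * w ^ 2 + 2209919721799680 * w ^ 3 + 1231006614945792 * w ^ 4 + 399423905464320 * w ^ 5 + 73840151494656 * w ^ 6 + 6262062317568 * w ^ 7) + (47293751592122056704 + 133357501301070495744 * w + 162287421479505100800 * w ^ 2 + 110658985620047659008 * w ^ 3 + 45797980646620004352 * w ^ 4 + 11543836351694635008 * w ^ 5 + 1645836965385338880 * w ^ 6 + 102597629011034112 * w ^ 7) / 64000000) ≤ E * (4000 * (74289512448 + 91804925952 * w + 72477573120 * w ^ 2 + 19327352832 * w ^ 3 + 3221225472 * w ^ 4) * (1 + 3 * w + 9 / 2 * w ^ 2 + 9 / 2 * w ^ 3)) := by gcongr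
      _ = 4000 * (74289512448 + 91804925952 * w + 72477573120 * w ^ 2 + 19327352832 * w ^ 3 + 3221225472 * w ^ 4) * (E * (1 + 3 * w + 9 / 2 * w ^ 2 + 9 / 2 * w ^ 3)) := by ring
      _ ≤ 4000 * (74289512448 + 91804925952 * w + 72477573120 * w ^ 2 + 19327352832 * w ^ 3 + 3221225472 * w ^ 4) * (1 / 8000) := by gcongr
      _ = (74289512448 + 91804925952 * w + 72477573120 * w ^ 2 + 19327352832 * w ^ 3 + 3221225472 * w ^ 4) / 2 := by ring
  have hp := pert4 (1 + w / 2) δ _ _ _ _ _ _ _ _ _ _ _ _ _ _ hg hδ hδ1 n0 n1 n2 n3 n4 n5 n6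
  have hp2 : (1 + w / 2) ^ 20 * (δ * 500000000000000) ≤ 500000000000000 * (1 + w / 2) ^ 4 := by
    calc (1 + w / 2) ^ 20 * (δ * 500000000000000)
        = (500000000000000 * (1 + w / 2) ^ 4) * (δ * (1 + w / 2) ^ 16) := by ring
      _ ≤ (500000000000000 * (1 + w / 2) ^ 4) * 1 := by gcongr
      _ = _ := by ring
  have h1 := (abs_le.1 (hp.trans hp2)).1
  have h2 : 500000000000000 * (1 + w / 2) ^ 4 < (59049 : ℝ) * ((74289512448 + 91804925952 * w + 72477573120 * w ^ 2 + 19327352832 * w ^ 3 + 3221225472 * w ^ 4) / 2) := by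
    have : 0 < (59049 : ℝ) * ((74289512448 + 91804925952 * w + 72477573120 * w ^ 2 + 19327352832 * w ^ 3 + 3221225472 * w ^ 4) / 2) - 500000000000000 * (1 + w / 2) ^ 4 := by
      have e : (59049 : ℝ) * ((74289512448 + 91804925952 * w + 72477573120 * w ^ 2 + 19327352832 * w ^ 3 + 3221225472 * w ^ 4) / 2) - 500000000000000 * (1 + w / 2) ^ 4 = 1693360710270976 + 1710494536269824 * w + 1389864107581440 * w ^ 2 + 320630428688384 * w ^ 3 + 63855071448064 * w ^ 4 := by ring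
      rw [e]; positivity
    linarith
  linarith

end Pool.Agent.H94.PF
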