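import Pool.Agent.H94.PF.Theta
import Pool.Agent.H94.PF.ECT
import Pool.Agent.H94.PF.Num

/-!
Series for the Hankel determinants of the de Bruijn-Newman kernel.
-/

set_option linter.all false
namespace Pool.Agent.H94.PF
open Polynomial
lemma der_mono (a : ℕ) (c : ℝ[X]) (hc : derivative c = 0) :
    derivative (c * X ^ a) = c * ((a : ℝ[X]) * X ^ (a - 1)) := by
  rw [derivative_mul, hc, derivative_X_pow]
  simp

lemma PP0_eq : P0 = (-3 : ℝ[X]) * X ^ 1 + (2 : ℝ[X]) * X ^ 2 := by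
  have h2 : (C 2 : ℝ[X]) = 2 := rfl
  have h3 : (C 3 : ℝ[X]) = 3 := rfl
  rw [P0, h2, h3]
  ring

lemma PP1_eq : LL ((-3 : ℝ[X]) * X ^ 1 + (2 : ℝ[X]) * X ^ 2) = (-15 : ℝ[X]) * X ^ 1 + (30 : ℝ[X]) * X ^ 2 + (-8 : ℝ[X]) * X ^ 3 := by
  have h4 : (C 4 : ℝ[X]) = 4 := rfl
  simp only [LL, D0, h4, derivative_add, derivative_mul, derivative_X_pow, derivative_ofNat,
    derivative_neg, Nat.cast_ofNat, Nat.cast_one, map_ofNat, map_one]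
  norm_num
  ring

lemma PP2_eq : LL ((-15 : ℝ[X]) * X ^ 1 + (30 : ℝ[X]) * X ^ 2 + (-8 : ℝ[X]) * X ^ 3) = (-75 : ℝ[X]) * X ^ 1 + (330 : ℝ[X]) * X ^ 2 + (-224 : ℝ[X]) * X ^ 3 + (32 : ℝ[X]) * X ^ 4 := by
  have h4 : (C 4 : ℝ[X]) = 4 := rfl
  simp only [LL, D0, h4, derivative_add, derivative_mul, derivative_X_pow, derivative_ofNat,
    derivative_neg, Nat.cast_ofNat, Nat.cast_one, map_ofNat, map_one]
  norm_num
  ring

lemma PP3_eq : LL ((-75 : ℝ[X]) * X ^ 1 + (330 : ℝ[X]) * X ^ 2 + (-224 : ℝ[X]) * X ^ 3 + (32 : ℝ[X]) * X ^ 4) = (-375 : ℝ[X]) * X ^ 1 + (3270 : ℝ[X]) * X ^ 2 + (-4232 : ℝ[X]) * X ^ 3 + (1440 : ℝ[X]) * X ^ 4 + (-128 : ℝ[X]) * X ^ 5 := by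
  have h4 : (C 4 : ℝ[X]) = 4 := rfl
  simp only [LL, D0, h4, derivative_add, derivative_mul, derivative_X_pow, derivative_ofNat,
    derivative_neg, Nat.cast_ofNat, Nat.cast_one, map_ofNat, map_one]
  norm_num
  ring

lemma PP4_eq : LL ((-375 : ℝ[X]) * X ^ 1 + (3270 : ℝ[X]) * X ^ 2 + (-4232 : ℝ[X]) * X ^ 3 + (1440 : ℝ[X]) * X ^ 4 + (-128 : ℝ[X]) * X ^ 5) = (-1875 : ℝ[X]) * X ^ 1 + (30930 : ℝ[X]) * X ^ 2 + (-68096 : ℝ[X]) * X ^ 3 + (41408 : ℝ[X]) * X ^ 4 + (-8448 : ℝ[X]) * X ^ 5 + (512 : ℝ[X]) * X ^ 6 := by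
  have h4 : (C 4 : ℝ[X]) = 4 := rfl
  simp only [LL, D0, h4, derivative_add, derivative_mul, derivative_X_pow, derivative_ofNat,
    derivative_neg, Nat.cast_ofNat, Nat.cast_one, map_ofNat, map_one]
  norm_num
  ring

lemma PP5_eq : LL ((-1875 : ℝ[X]) * X ^ 1 + (30930 : ℝ[X]) * X ^ 2 + (-68096 : ℝ[X]) * X ^ 3 + (41408 : ℝ[X]) * X ^ 4 + (-8448 : ℝ[X]) * X ^ 5 + (512 : ℝ[X]) * X ^ 6) = (-9375 : ℝ[X]) * X ^ 1 + (285870 : ℝ[X]) * X ^ 2 + (-1008968 : ℝ[X]) * X ^ 3 + (976320 : ℝ[X]) * X ^ 4 + (-343040 : ℝ[X]) * X ^ 5 + (46592 : ℝ[X]) * X ^ 6 + (-2048 : ℝ[X]) * X ^ 7 := by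
  have h4 : (C 4 : ℝ[X]) = 4 := rfl
  simp only [LL, D0, h4, derivative_add, derivative_mul, derivative_X_pow, derivative_ofNat,
    derivative_neg, Nat.cast_ofNat, Nat.cast_one, map_ofNat, map_one]
  norm_num
  ring

lemma PP6_eq : LL ((-9375 : ℝ[X]) * X ^ 1 + (285870 : ℝ[X]) * X ^ 2 + (-1008968 : ℝ[X]) * X ^ 3 + (976320 : ℝ[X]) * X ^ 4 + (-343040 : ℝ[X]) * X ^ 5 + (46592 : ℝ[X]) * X ^ 6 + (-2048 : ℝ[X]) * X ^ 7) = (-46875 : ℝ[X]) * X ^ 1 + (2610330 : ℝ[X]) * X ^ 2 + (-14260064 : ℝ[X]) * X ^ 3 + (20633312 : ℝ[X]) * X ^ 4 + (-11109120 : ℝ[X]) * X ^ 5 + (2536960 : ℝ[X]) * X ^ 6 + (-245760 : ℝ[X]) * X ^ 7 + (8192 : ℝ[X]) * X ^ 8 := by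
  have h4 : (C 4 : ℝ[X]) = 4 := rfl
  simp only [LL, D0, h4, derivative_add, derivative_mul, derivative_X_pow, derivative_ofNat,
    derivative_neg, Nat.cast_ofNat, Nat.cast_one, map_ofNat, map_one]
  norm_num
  ring

lemma ev0 (y : ℝ) : (LL^[0] P0).eval y = p0 y := by
  rw [Function.iterate_zero_apply, PP0_eq]
  unfold p0
  simp [eval_add, eval_mul]

lemma it0 : LL^[0] P0 = (-3 : ℝ[X]) * X ^ 1 + (2 : ℝ[X]) * X ^ 2 := by
  rw [Function.iterate_zero_apply, PP0_eq]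

lemma it1 : LL^[1] P0 = (-15 : ℝ[X]) * X ^ 1 + (30 : ℝ[X]) * X ^ 2 + (-8 : ℝ[X]) * X ^ 3 := by
  rw [Function.iterate_succ_apply', it0, PP1_eq]

lemma ev1 (y : ℝ) : (LL^[1] P0).eval y = p1 y := by
  rw [it1]
  unfold p1
  simp [eval_add, eval_mul]

lemma it2 : LL^[2] P0 = (-75 : ℝ[X]) * X ^ 1 + (330 : ℝ[X]) * X ^ 2 + (-224 : ℝ[X]) * X ^ 3 + (32 : ℝ[X]) * X ^ 4 := by
  rw [Function.iterate_succ_apply', it1, PP2_eq]

lemma ev2 (y : ℝ) : (LL^[2] P0).eval y = p2 y := by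
  rw [it2]
  unfold p2
  simp [eval_add, eval_mul]

lemma it3 : LL^[3] P0 = (-375 : ℝ[X]) * X ^ 1 + (3270 : ℝ[X]) * X ^ 2 + (-4232 : ℝ[X]) * X ^ 3 + (1440 : ℝ[X]) * X ^ 4 + (-128 : ℝ[X]) * X ^ 5 := by
  rw [Function.iterate_succ_apply', it2, PP3_eq]

lemma ev3 (y : ℝ) : (LL^[3] P0).eval y = p3 y := by
  rw [it3]
  unfold p3
  simp [eval_add, eval_mul]

lemma it4 : LL^[4] P0 = (-1875 : ℝ[X]) * X ^ 1 + (30930 : ℝ[X]) * X ^ 2 + (-68096 : ℝ[X]) * X ^ 3 + (41408 : ℝ[X]) * X ^ 4 + (-8448 : ℝ[X]) * X ^ 5 + (512 : ℝ[X]) * X ^ 6 := by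
  rw [Function.iterate_succ_apply', it3, PP4_eq]

lemma ev4 (y : ℝ) : (LL^[4] P0).eval y = p4 y := by
  rw [it4]
  unfold p4
  simp [eval_add, eval_mul]

lemma it5 : LL^[5] P0 = (-9375 : ℝ[X]) * X ^ 1 + (285870 : ℝ[X]) * X ^ 2 + (-1008968 : ℝ[X]) * X ^ 3 + (976320 : ℝ[X]) * X ^ 4 + (-343040 : ℝ[X]) * X ^ 5 + (46592 : ℝ[X]) * X ^ 6 + (-2048 : ℝ[X]) * X ^ 7 := by
  rw [Function.iterate_succ_apply', it4, PP5_eq]

lemma ev5 (y : ℝ) : (LL^[5] P0).eval y = p5 y := by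
  rw [it5]
  unfold p5
  simp [eval_add, eval_mul]

lemma it6 : LL^[6] P0 = (-46875 : ℝ[X]) * X ^ 1 + (2610330 : ℝ[X]) * X ^ 2 + (-14260064 : ℝ[X]) * X ^ 3 + (20633312 : ℝ[X]) * X ^ 4 + (-11109120 : ℝ[X]) * X ^ 5 + (2536960 : ℝ[X]) * X ^ 6 + (-245760 : ℝ[X]) * X ^ 7 + (8192 : ℝ[X]) * X ^ 8 := by
  rw [Function.iterate_succ_apply', it5, PP6_eq]

lemma ev6 (y : ℝ) : (LL^[6] P0).eval y = p6 y := by
  rw [it6]
  unfold p6
  simp [eval_add, eval_mul]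

/-- Tail bound, one term. -/
lemma tail_term (p : ℝ → ℝ) (c : ℝ) (m : ℕ) (hm : m ≤ 8) (hc : 0 ≤ c)
    (hp : ∀ y, 27 ≤ y → |p y| ≤ c * y ^ m) (z : ℝ) (hz : 3 ≤ z) (n : ℕ) :
    |p (((n : ℝ) + 3) ^ 2 * z) * Real.exp (-((((n : ℝ) + 3) ^ 2 - 1) * z))|
      ≤ c * (9 * z) ^ m * Real.exp (-8 * z) * (1 / 100) ^ n := by
  have hn : (0 : ℝ) ≤ n := Nat.cast_nonneg n
  have hN : (9 : ℝ) ≤ ((n : ℝ) + 3) ^ 2 := by nlinarith
  have hy : 27 ≤ ((n : ℝ) + 3) ^ 2 * z := by nlinarith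
  rw [abs_mul, abs_of_pos (Real.exp_pos _)]
  set x : ℝ := (((n : ℝ) + 3) ^ 2 - 9) / 9 with hx
  have hx0 : 0 ≤ x := by rw [hx]; linarith
  have e1 : (((n : ℝ) + 3) ^ 2 * z) ^ m = (9 * z) ^ m * (1 + x) ^ m := by
    rw [← mul_pow]; congr 1; rw [hx]; ring
  have e2 : Real.exp (-((((n : ℝ) + 3) ^ 2 - 1) * z)) = Real.exp (-8 * z) * Real.exp (-(9 * x * z)) := by
    rw [← Real.exp_add]; congr 1; rw [hx]; ring
  have h1 : (1 + x) ^ m ≤ Real.exp (8 * x) := by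
    calc (1 + x) ^ m ≤ (1 + x) ^ 8 := by gcongr; linarith
      _ ≤ (Real.exp x) ^ 8 := by
        have := Real.add_one_le_exp x
        gcongr
        linarith
      _ = _ := by rw [← Real.exp_nat_mul]; norm_num
  have h2 : Real.exp (8 * x) * Real.exp (-(9 * x * z)) ≤ (1 / 100) ^ n := by
    rw [← Real.exp_add]
    have h3 : 8 * x + -(9 * x * z) ≤ (n : ℝ) * (-12) := by
      have h4 : 8 * x + -(9 * x * z) ≤ -19 * x := by nlinarith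
      have h5 : (n : ℝ) * 12 ≤ 19 * x := by
        rw [hx]; nlinarith
      linarith
    calc Real.exp (8 * x + -(9 * x * z)) ≤ Real.exp ((n : ℝ) * (-12)) := Real.exp_le_exp.2 h3
      _ = (Real.exp (-12)) ^ n := by rw [Real.exp_nat_mul]
      _ ≤ (1 / 100) ^ n := by
        have : Real.exp (-12) ≤ 1 / 100 := by
          rw [Real.exp_neg, inv_eq_one_div]
          apply one_div_le_one_div_of_le (by norm_num)
          have h6 := Real.sum_le_exp_of_nonneg (x := 12) (by norm_num) 4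
          simp [Finset.sum_range_succ, Nat.factorial] at h6
          linarith
        gcongr
  calc |p (((n : ℝ) + 3) ^ 2 * z)| * Real.exp (-((((n : ℝ) + 3) ^ 2 - 1) * z))
      ≤ (c * (((n : ℝ) + 3) ^ 2 * z) ^ m) * Real.exp (-((((n : ℝ) + 3) ^ 2 - 1) * z)) := by
        gcongr; exact hp _ hy
    _ = (c * (9 * z) ^ m * Real.exp (-8 * z)) * ((1 + x) ^ m * Real.exp (-(9 * x * z))) := by
        rw [e1, e2]; ring
    _ ≤ (c * (9 * z) ^ m * Real.exp (-8 * z)) * (Real.exp (8 * x) * Real.exp (-(9 * x * z))) := by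
        have : 0 ≤ z := by linarith
        gcongr
    _ ≤ (c * (9 * z) ^ m * Real.exp (-8 * z)) * (1 / 100) ^ n := by
        have : 0 ≤ z := by linarith
        gcongr

lemma tail_sum (p : ℝ → ℝ) (c ρ : ℝ) (m : ℕ) (hm : m ≤ 8) (hc : 0 ≤ c)
    (hp : ∀ y, 27 ≤ y → |p y| ≤ c * y ^ m) (w : ℝ) (hw : 0 ≤ w)
    (hρ : c * 27 ^ m * (1 / 25000000000) * (100 / 99) ≤ ρ) :
    |∑' n : ℕ, p (((n : ℝ) + 3) ^ 2 * (3 + w)) * Real.exp (-((((n : ℝ) + 3) ^ 2 - 1) * (3 + w)))|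
      ≤ ρ * Real.exp (-8 * w) * (1 + w / 2) ^ m := by
  have hb := tail_term p c m hm hc hp (3 + w) (by linarith)
  have hgeo : HasSum (fun n : ℕ => c * (9 * (3 + w)) ^ m * Real.exp (-8 * (3 + w)) * (1 / 100 : ℝ) ^ n)
      (c * (9 * (3 + w)) ^ m * Real.exp (-8 * (3 + w)) * (1 - 1 / 100)⁻¹) :=
    (hasSum_geometric_of_lt_one (by norm_num) (by norm_num)).mul_left _
  have h1 := tsum_of_norm_bounded hgeo (fun n => by rw [Real.norm_eq_abs]; exact hb n)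
  rw [Real.norm_eq_abs] at h1
  refine h1.trans ?_
  have e1 : Real.exp (-8 * (3 + w)) = Real.exp (-24) * Real.exp (-8 * w) := by
    rw [← Real.exp_add]; congr 1; ring
  have e2 : Real.exp (-24) ≤ 1 / 25000000000 := by
    rw [Real.exp_neg, inv_eq_one_div]
    exact one_div_le_one_div_of_le (by norm_num) exp_bound_aux2
  have e3 : (9 * (3 + w)) ^ m ≤ 27 ^ m * (1 + w / 2) ^ m := by
    rw [← mul_pow]
    exact pow_le_pow_left₀ (by positivity) (by linarith) m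
  calc c * (9 * (3 + w)) ^ m * Real.exp (-8 * (3 + w)) * (1 - 1 / 100)⁻¹
      ≤ c * (27 ^ m * (1 + w / 2) ^ m) * (1 / 25000000000 * Real.exp (-8 * w)) * (100 / 99) := by
        rw [e1]
        have : (1 - 1 / 100 : ℝ)⁻¹ = 100 / 99 := by norm_num
        rw [this]
        gcongr
    _ = (c * 27 ^ m * (1 / 25000000000) * (100 / 99)) * Real.exp (-8 * w) * (1 + w / 2) ^ m := by ring
    _ ≤ _ := by gcongr

/-- Splitting the series. -/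
lemma sm_split (Q : ℝ[X]) (p : ℝ → ℝ) (hQ : ∀ y, Q.eval y = p y) (u w : ℝ)
    (hw : Real.pi * Real.exp (4 * u) = 3 + w) :
    TT Q u = (Real.exp u * Real.exp (-(3 + w))) * (p (3 + w)
      + Real.exp (-3 * (3 + w)) * p (4 * (3 + w))
      + ∑' n : ℕ, p (((n : ℝ) + 3) ^ 2 * (3 + w)) *
          Real.exp (-((((n : ℝ) + 3) ^ 2 - 1) * (3 + w)))) := by
  have hy : ∀ n : ℕ, yy n u = ((n : ℝ) + 1) ^ 2 * (3 + w) := by
    intro n; unfold yy; rw [← hw]; ring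
  have hs := (tm_summable Q u).sum_add_tsum_nat_add 2
  unfold TT sm
  rw [← hs, Finset.sum_range_succ, Finset.sum_range_one, mul_assoc]
  congr 1
  have e3 : ∀ n : ℕ, tm Q (n + 2) u = Real.exp (-(3 + w)) * (p (((n : ℝ) + 3) ^ 2 * (3 + w)) *
          Real.exp (-((((n : ℝ) + 3) ^ 2 - 1) * (3 + w)))) := by
    intro n
    unfold tm
    rw [hy, hQ]
    push_cast
    have e4 : ((n : ℝ) + 2 + 1) = (n : ℝ) + 3 := by ring
    rw [e4]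
    have e5 : Real.exp (-(((n : ℝ) + 3) ^ 2 * (3 + w)))
        = Real.exp (-(3 + w)) * Real.exp (-((((n : ℝ) + 3) ^ 2 - 1) * (3 + w))) := by
      rw [← Real.exp_add]; congr 1; ring
    rw [e5]; ring
  simp_rw [e3]
  rw [tsum_mul_left, mul_add, mul_add]
  congr 1
  congr 1
  · unfold tm
    rw [hy, hQ]
    have : (((0 : ℕ) : ℝ) + 1) ^ 2 * (3 + w) = 3 + w := by push_cast; ring
    rw [this]; ring
  · unfold tm
    rw [hy, hQ]
    have : (((1 : ℕ) : ℝ) + 1) ^ 2 * (3 + w) = 4 * (3 + w) := by push_cast; ring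
    rw [this]
    have e5 : Real.exp (-(4 * (3 + w))) = Real.exp (-(3 + w)) * Real.exp (-3 * (3 + w)) := by
      rw [← Real.exp_add]; congr 1; ring
    rw [e5]; ring

end Pool.Agent.H94.PF
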