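import Mathlib

/-!
Termwise differentiation of theta-type series and evenness.
-/

namespace Pool.Agent.H94.PF

open Polynomial

/-- `y_n(u) = π (n+1)^2 e^{4u}`. -/
noncomputable def yy (n : ℕ) (u : ℝ) : ℝ := Real.pi * ((n : ℝ) + 1) ^ 2 * Real.exp (4 * u)

lemma yy_pos (n : ℕ) (u : ℝ) : 0 < yy n u := by
  unfold yy; have := Real.pi_pos; positivity

lemma yy_hasDerivAt (n : ℕ) (u : ℝ) : HasDerivAt (yy n) (4 * yy n u) u := by
  unfold yy
  have h1 : HasDerivAt (fun u : ℝ => Real.exp (4 * u)) (Real.exp (4 * u) * (4 * 1)) u :=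
    ((hasDerivAt_id u).const_mul 4).exp
  have h2 := h1.const_mul (Real.pi * ((n : ℝ) + 1) ^ 2)
  exact h2.congr_deriv (by ring)

/-- The `n`-th term attached to a polynomial. -/
noncomputable def tm (Q : ℝ[X]) (n : ℕ) (u : ℝ) : ℝ := Q.eval (yy n u) * Real.exp (-(yy n u))

/-- The operator `4 X (Q' - Q)`. -/
noncomputable def D0 (Q : ℝ[X]) : ℝ[X] := C 4 * X * (derivative Q - Q)

lemma tm_hasDerivAt (Q : ℝ[X]) (n : ℕ) (u : ℝ) : HasDerivAt (tm Q n) (tm (D0 Q) n u) u := by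
  unfold tm
  have h1 : HasDerivAt (fun u => Q.eval (yy n u)) ((derivative Q).eval (yy n u) * (4 * yy n u)) u :=
    (Q.hasDerivAt (yy n u)).comp u (yy_hasDerivAt n u)
  have h2 : HasDerivAt (fun u => Real.exp (-(yy n u)))
      (Real.exp (-(yy n u)) * (-(4 * yy n u))) u := (yy_hasDerivAt n u).neg.exp
  have h3 := h1.mul h2
  refine h3.congr_deriv ?_
  simp only [D0, eval_mul, eval_C, eval_X, eval_sub]
  ring

lemma poly_bound (Q : ℝ[X]) : ∃ C : ℝ, 0 ≤ C ∧ ∀ y : ℝ, 0 ≤ y →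
    |Q.eval y| * Real.exp (-y) ≤ C * Real.exp (-y / 2) := by
  induction Q using Polynomial.induction_on' with
  | add p q hp hq =>
    obtain ⟨C1, h1, h1'⟩ := hp
    obtain ⟨C2, h2, h2'⟩ := hq
    refine ⟨C1 + C2, by positivity, fun y hy => ?_⟩
    rw [eval_add]
    calc |eval y p + eval y q| * Real.exp (-y) ≤ (|eval y p| + |eval y q|) * Real.exp (-y) := by
          gcongr; exact abs_add_le _ _
      _ = |eval y p| * Real.exp (-y) + |eval y q| * Real.exp (-y) := by ring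
      _ ≤ C1 * Real.exp (-y / 2) + C2 * Real.exp (-y / 2) := add_le_add (h1' y hy) (h2' y hy)
      _ = _ := by ring
  | monomial k a =>
    refine ⟨|a| * (k.factorial : ℝ) * 2 ^ k, by positivity, fun y hy => ?_⟩
    rw [eval_monomial, abs_mul, abs_of_nonneg (pow_nonneg hy k)]
    have h1 := Real.pow_div_factorial_le_exp (y / 2) (by linarith) k
    have hf : (0 : ℝ) < k.factorial := by exact_mod_cast k.factorial_pos
    have h2 : y ^ k ≤ (k.factorial : ℝ) * 2 ^ k * Real.exp (y / 2) := by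
      rw [div_pow, div_div, div_le_iff₀ (by positivity)] at h1
      linarith
    calc |a| * y ^ k * Real.exp (-y)
        ≤ |a| * ((k.factorial : ℝ) * 2 ^ k * Real.exp (y / 2)) * Real.exp (-y) := by gcongr
      _ = |a| * (k.factorial : ℝ) * 2 ^ k * (Real.exp (y / 2) * Real.exp (-y)) := by ring
      _ = _ := by
        rw [← Real.exp_add]
        congr 2
        ring

lemma exists_bound (Q : ℝ[X]) (M : ℝ) : ∃ b : ℕ → ℝ, Summable b ∧
    ∀ n, ∀ u ∈ Set.Ioo (-M) M, ‖tm Q n u‖ ≤ b n := by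
  obtain ⟨C, hC, hb⟩ := poly_bound Q
  set c : ℝ := Real.pi * Real.exp (-4 * M) with hc
  have hcpos : 0 < c := by have := Real.pi_pos; positivity
  refine ⟨fun n => C * Real.exp (-(c / 2)) ^ (n + 1), ?_, ?_⟩
  · apply Summable.mul_left
    have : Real.exp (-(c / 2)) < 1 := by
      rw [Real.exp_lt_one_iff]; linarith
    exact (summable_nat_add_iff 1).2 (summable_geometric_of_lt_one (Real.exp_pos _).le this)
  · intro n u hu
    unfold tm
    rw [norm_mul, Real.norm_eq_abs, Real.norm_eq_abs, abs_of_pos (Real.exp_pos _)]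
    refine (hb _ (yy_pos n u).le).trans ?_
    apply mul_le_mul_of_nonneg_left _ hC
    rw [← Real.exp_nat_mul, Real.exp_le_exp]
    have h1 : c * ((n : ℝ) + 1) ≤ yy n u := by
      unfold yy
      have e1 : Real.exp (-4 * M) ≤ Real.exp (4 * u) := by
        rw [Real.exp_le_exp]; linarith [hu.1]
      have e2 : ((n : ℝ) + 1) ≤ ((n : ℝ) + 1) ^ 2 := by
        have : (0 : ℝ) ≤ n := Nat.cast_nonneg n
        nlinarith
      calc c * ((n : ℝ) + 1) = Real.pi * ((n : ℝ) + 1) * Real.exp (-4 * M) := by rw [hc]; ring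
        _ ≤ Real.pi * ((n : ℝ) + 1) ^ 2 * Real.exp (4 * u) := by
          have := Real.pi_pos
          gcongr
    push_cast
    nlinarith [h1]

lemma tm_summable (Q : ℝ[X]) (u : ℝ) : Summable (fun n => tm Q n u) := by
  obtain ⟨b, hb, h⟩ := exists_bound Q (|u| + 1)
  refine Summable.of_norm_bounded hb (fun n => h n u ⟨?_, ?_⟩)
  · linarith [neg_abs_le u]
  · linarith [le_abs_self u]

/-- `Σ_n Q(y_n) e^{-y_n}`. -/
noncomputable def sm (Q : ℝ[X]) (u : ℝ) : ℝ := ∑' n, tm Q n u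

lemma sm_hasDerivAt (Q : ℝ[X]) (u : ℝ) : HasDerivAt (sm Q) (sm (D0 Q) u) u := by
  obtain ⟨b, hb, h⟩ := exists_bound (D0 Q) (|u| + 1)
  have hu : u ∈ Set.Ioo (-(|u| + 1)) (|u| + 1) :=
    ⟨by linarith [neg_abs_le u], by linarith [le_abs_self u]⟩
  exact hasDerivAt_tsum_of_isPreconnected hb isOpen_Ioo isPreconnected_Ioo
    (fun n y _ => tm_hasDerivAt Q n y) (fun n y hy => h n y hy) hu (tm_summable Q u) hu

lemma tm_add (P Q : ℝ[X]) (n : ℕ) (u : ℝ) : tm (P + Q) n u = tm P n u + tm Q n u := by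
  simp [tm]; ring

lemma tm_smul (c : ℝ) (Q : ℝ[X]) (n : ℕ) (u : ℝ) : tm (C c * Q) n u = c * tm Q n u := by
  simp [tm]; ring

lemma sm_add (P Q : ℝ[X]) (u : ℝ) : sm (P + Q) u = sm P u + sm Q u := by
  unfold sm
  rw [← (tm_summable P u).tsum_add (tm_summable Q u)]
  simp_rw [tm_add]

lemma sm_smul (c : ℝ) (Q : ℝ[X]) (u : ℝ) : sm (C c * Q) u = c * sm Q u := by
  unfold sm
  rw [← tsum_mul_left]
  simp_rw [tm_smul]

/-- `e^u Σ_n Q(y_n) e^{-y_n}`. -/
noncomputable def TT (Q : ℝ[X]) (u : ℝ) : ℝ := Real.exp u * sm Q u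

/-- The derivative operator on polynomials. -/
noncomputable def LL (Q : ℝ[X]) : ℝ[X] := Q + D0 Q

lemma TT_hasDerivAt (Q : ℝ[X]) (u : ℝ) : HasDerivAt (TT Q) (TT (LL Q) u) u := by
  have h := (Real.hasDerivAt_exp u).mul (sm_hasDerivAt Q u)
  refine h.congr_deriv ?_
  unfold TT LL
  rw [sm_add]
  ring

lemma TT_iteratedDeriv (Q : ℝ[X]) (k : ℕ) : iteratedDeriv k (TT Q) = TT (LL^[k] Q) := by
  induction k with
  | zero => simp
  | succ k ih =>
    rw [iteratedDeriv_succ, ih]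
    funext u
    rw [(TT_hasDerivAt _ u).deriv, Function.iterate_succ_apply']

lemma TT_contDiff (Q : ℝ[X]) : ContDiff ℝ (⊤ : ℕ∞) (TT Q) := by
  apply contDiff_of_differentiable_iteratedDeriv
  intro m _
  rw [TT_iteratedDeriv]
  exact fun u => (TT_hasDerivAt _ u).differentiableAt

/-- The theta function combination `e^u θ(e^{4u})`. -/
noncomputable def G (u : ℝ) : ℝ := Real.exp u + 2 * TT 1 u

lemma theta_eq (u : ℝ) : Real.exp u * ∑' n : ℤ, Real.exp (-Real.pi * Real.exp (4 * u) * (n : ℝ) ^ 2)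
    = G u := by
  have hs : Summable (fun n : ℤ => Real.exp (-Real.pi * Real.exp (4 * u) * (n : ℝ) ^ 2)) := by
    have h1 : Summable (fun n : ℕ => tm 1 n u) := tm_summable 1 u
    have h2 : Summable (fun n : ℕ => Real.exp (-Real.pi * Real.exp (4 * u) * ((n : ℤ) : ℝ) ^ 2)) := by
      rw [← summable_nat_add_iff 1]
      refine h1.congr (fun n => ?_)
      simp only [tm, yy, eval_one, one_mul]
      congr 1
      push_cast
      ring
    have h5 : Summable (fun n : ℕ =>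
        Real.exp (-Real.pi * Real.exp (4 * u) * ((-(n : ℤ) : ℤ) : ℝ) ^ 2)) := by
      have e : (fun n : ℕ => Real.exp (-Real.pi * Real.exp (4 * u) * ((-(n : ℤ) : ℤ) : ℝ) ^ 2))
          = (fun n : ℕ => Real.exp (-Real.pi * Real.exp (4 * u) * ((n : ℤ) : ℝ) ^ 2)) := by
        funext n
        rw [Int.cast_neg, neg_sq]
      rw [e]
      exact h2
    exact Summable.of_nat_of_neg (f := fun n : ℤ =>
      Real.exp (-Real.pi * Real.exp (4 * u) * (n : ℝ) ^ 2)) h2 h5
  have e1 : ∀ n : ℕ, Real.exp (-Real.pi * Real.exp (4 * u) * (((n : ℤ) + 1 : ℤ) : ℝ) ^ 2)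
      = tm 1 n u := by
    intro n
    simp only [tm, yy, eval_one, one_mul]
    congr 1
    push_cast
    ring
  have e2 : ∀ n : ℕ, Real.exp (-Real.pi * Real.exp (4 * u) * ((-((n : ℤ) + 1) : ℤ) : ℝ) ^ 2)
      = tm 1 n u := by
    intro n
    simp only [tm, yy, eval_one, one_mul]
    congr 1
    push_cast
    ring
  have h3 : (∑' n : ℤ, Real.exp (-Real.pi * Real.exp (4 * u) * (n : ℝ) ^ 2)) = 1 + 2 * sm 1 u := by
    have i1 : Function.Injective (fun n : ℕ => (n : ℤ) + 1) := fun a b h => by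
      simp only at h; omega
    have i2 : Function.Injective (fun n : ℕ => -((n : ℤ) + 1)) := fun a b h => by
      simp only at h; omega
    have h4 := tsum_of_add_one_of_neg_add_one (f := fun n : ℤ =>
      Real.exp (-Real.pi * Real.exp (4 * u) * (n : ℝ) ^ 2)) (hs.comp_injective i1)
      (hs.comp_injective i2)
    rw [h4]
    simp_rw [e1, e2]
    simp [sm]
    ring
  rw [h3]
  unfold G TT
  ring

lemma G_even (u : ℝ) : G (-u) = G u := by
  rw [← theta_eq, ← theta_eq]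
  have h := Real.tsum_exp_neg_mul_int_sq (a := Real.exp (4 * u)) (Real.exp_pos _)
  rw [h]
  have e1 : (Real.exp (4 * u)) ^ (1 / 2 : ℝ) = Real.exp (2 * u) := by
    rw [← Real.exp_mul]; congr 1; ring
  rw [e1]
  have e2 : ∀ n : ℤ, Real.exp (-Real.pi / Real.exp (4 * u) * (n : ℝ) ^ 2)
      = Real.exp (-Real.pi * Real.exp (4 * -u) * (n : ℝ) ^ 2) := by
    intro n
    congr 1
    have : Real.exp (4 * -u) = (Real.exp (4 * u))⁻¹ := by rw [← Real.exp_neg]; congr 1; ring
    rw [this]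
    ring
  simp_rw [e2]
  have e3 : Real.exp u * (1 / Real.exp (2 * u)) = Real.exp (-u) := by
    rw [one_div, ← Real.exp_neg, ← Real.exp_add]; congr 1; ring
  rw [← mul_assoc, e3]

lemma even_deriv2 (g g' g'' : ℝ → ℝ) (h1 : ∀ u, HasDerivAt g (g' u) u)
    (h2 : ∀ u, HasDerivAt g' (g'' u) u) (he : ∀ u, g (-u) = g u) : ∀ u, g'' (-u) = g'' u := by
  have o1 : ∀ u, g' (-u) = - g' u := by
    intro u
    have a1 : HasDerivAt (fun u => g (-u)) (g' (-u) * (-1)) u :=
      (h1 (-u)).comp u (hasDerivAt_neg u)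
    have a2 : (fun u => g (-u)) = g := funext he
    rw [a2] at a1
    have := a1.unique (h1 u)
    linarith
  intro u
  have a1 : HasDerivAt (fun u => g' (-u)) (g'' (-u) * (-1)) u :=
    (h2 (-u)).comp u (hasDerivAt_neg u)
  have a2 : (fun u => g' (-u)) = fun u => - g' u := funext o1
  rw [a2] at a1
  have := a1.unique (h2 u).neg
  linarith

/-- The basic polynomial `2 y^2 - 3 y`. -/
noncomputable def P0 : ℝ[X] := C 2 * X ^ 2 - C 3 * X

lemma LL_one : LL (1 : ℝ[X]) = 1 - C 4 * X := by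
  simp [LL, D0]; ring

lemma LL_LL_one : LL (LL (1 : ℝ[X])) = 1 + C 8 * P0 := by
  rw [LL_one]
  have h4 : (C 4 : ℝ[X]) = 4 := rfl
  have h8 : (C 8 : ℝ[X]) = 8 := rfl
  have h2 : (C 2 : ℝ[X]) = 2 := rfl
  have h3 : (C 3 : ℝ[X]) = 3 := rfl
  simp only [LL, D0, P0, derivative_sub, derivative_one, derivative_mul, derivative_C,
    derivative_X, h4, h8, h2, h3]
  have : derivative (4 : ℝ[X]) = 0 := derivative_ofNat 4
  rw [this]
  ring

/-- The de Bruijn–Newman kernel is even. -/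
theorem TT_P0_even (u : ℝ) : TT P0 (-u) = TT P0 u := by
  have hG1 : ∀ u, HasDerivAt G (Real.exp u + 2 * TT (LL 1) u) u := fun u =>
    (Real.hasDerivAt_exp u).add ((TT_hasDerivAt 1 u).const_mul 2)
  have hG2 : ∀ u, HasDerivAt (fun u => Real.exp u + 2 * TT (LL 1) u)
      (Real.exp u + 2 * TT (LL (LL 1)) u) u := fun u =>
    (Real.hasDerivAt_exp u).add ((TT_hasDerivAt (LL 1) u).const_mul 2)
  have h := even_deriv2 G _ _ hG1 hG2 G_even u
  have hG := G_even u
  rw [LL_LL_one] at h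
  have e : ∀ v, TT (1 + C 8 * P0) v = TT 1 v + 8 * TT P0 v := by
    intro v
    unfold TT
    rw [sm_add, sm_smul]
    ring
  rw [e, e] at h
  unfold G at hG
  linarith

end Pool.Agent.H94.PF
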